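import Mathlib
import Pool.Agent.Lib.MP_0a1b52_lc_RV.Arith

/-!
# Local proofs, fixed sets and families of subsets: the parameters
-/

set_option autoImplicit false

namespace Pool.Agent.RW

open Finset Pool.Agent.RV

private theorem arith_pow {x y : ℝ} (hxy : x < y) (C : ℝ) :
    ∀ᶠ n : ℕ in Filter.atTop, C * (n : ℝ) ^ x ≤ (n : ℝ) ^ y := by
  have h1 : Filter.Tendsto (fun n : ℕ => ((n : ℝ)) ^ (y - x)) Filter.atTop Filter.atTop :=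
    (tendsto_rpow_atTop (by linarith)).comp tendsto_natCast_atTop_atTop
  filter_upwards [h1.eventually_ge_atTop C, Filter.eventually_ge_atTop 1] with n hn h1n
  have hn0 : (0 : ℝ) < n := by exact_mod_cast h1n
  have h2 : (n : ℝ) ^ y = (n : ℝ) ^ (y - x) * (n : ℝ) ^ x := by
    rw [← Real.rpow_add hn0]
    congr 1
    ring
  rw [h2]
  exact mul_le_mul_of_nonneg_right hn (Real.rpow_nonneg hn0.le x)

private theorem arith_term (M n k i j : ℕ) (e δ c t : ℝ) (hc : 0 ≤ c) (hn : 1 ≤ n)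
    (hM : (M : ℝ) ≤ (n : ℝ) ^ (2 - e)) (ht : (2 - e) * k + i + j * (2 * δ - 2) ≤ t) :
    (M : ℝ) ^ k * c * (n : ℝ) ^ i * (4 * (n : ℝ) ^ (δ - 1)) ^ (2 * j) ≤
      c * 16 ^ j * (n : ℝ) ^ t := by
  have hn1 : (1 : ℝ) ≤ n := by exact_mod_cast hn
  have hn0 : (0 : ℝ) < n := by linarith
  have e1 : (M : ℝ) ^ k ≤ (n : ℝ) ^ ((2 - e) * k) := by
    rw [Real.rpow_mul hn0.le, Real.rpow_natCast]
    exact pow_le_pow_left₀ (by positivity) hM k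
  have e2 : (n : ℝ) ^ i = (n : ℝ) ^ (i : ℝ) := (Real.rpow_natCast _ _).symm
  have e3 : (4 * (n : ℝ) ^ (δ - 1)) ^ (2 * j) = 16 ^ j * (n : ℝ) ^ (j * (2 * δ - 2)) := by
    rw [pow_mul, mul_pow, mul_pow, ← Real.rpow_natCast ((n : ℝ) ^ (δ - 1)) 2,
      ← Real.rpow_mul hn0.le, ← Real.rpow_natCast ((n : ℝ) ^ _) j, ← Real.rpow_mul hn0.le]
    norm_num
    congr 1
    ring
  have e4 : (n : ℝ) ^ ((2 - e) * k + i + j * (2 * δ - 2)) =
      (n : ℝ) ^ ((2 - e) * k) * (n : ℝ) ^ (i : ℝ) * (n : ℝ) ^ (j * (2 * δ - 2)) := by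
    rw [← Real.rpow_add hn0, ← Real.rpow_add hn0]
  calc (M : ℝ) ^ k * c * (n : ℝ) ^ i * (4 * (n : ℝ) ^ (δ - 1)) ^ (2 * j)
      ≤ (n : ℝ) ^ ((2 - e) * k) * c * (n : ℝ) ^ (i : ℝ) *
        (16 ^ j * (n : ℝ) ^ (j * (2 * δ - 2))) := by
        rw [e2, e3]
        gcongr
    _ = c * 16 ^ j * (n : ℝ) ^ ((2 - e) * k + i + j * (2 * δ - 2)) := by
        rw [e4]
        ring
    _ ≤ c * 16 ^ j * (n : ℝ) ^ t := by
        refine mul_le_mul_of_nonneg_left ?_ (by positivity)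
        exact Real.rpow_le_rpow_of_exponent_le hn1 ht

private theorem arith_bad (a h : ℕ) (δ ε : ℝ) (hδ : 0 ≤ δ) (hε : 0 < ε) (hδε : 2 * δ + ε ≤ 1)
    (ha : 2 ≤ a * (ε / 2)) (hh : 1 ≤ ((h : ℝ) - 1) * (ε / 4)) (hh1 : 1 ≤ h) :
    ∃ (C : ℝ) (D : ℕ), 0 < C ∧ 2 ≤ D ∧ ∀ n M g : ℕ, 1 ≤ n → 1 ≤ g →
      (M : ℝ) ≤ (n : ℝ) ^ (2 - (2 * δ + ε / 2)) →
      badq M g n (4 * (n : ℝ) ^ (δ - 1)) a h ≤
        C * (g : ℝ) ^ D * (n : ℝ) ^ (2 - 2 * δ - ε) := by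
  have hcard := Pool.Agent.RP.pairs_card h
  set m : ℕ := Fintype.card (Pool.Agent.RP.Pairs h) with hm
  refine ⟨16 + 16 + 16 ^ a + 16 ^ m, 4 + 3 * a + 2 * m, by positivity, by omega, ?_⟩
  intro n M g hn hg hM
  have hn1 : (1 : ℝ) ≤ n := by exact_mod_cast hn
  have hn0 : (0 : ℝ) < n := by linarith
  have hg1 : (1 : ℝ) ≤ g := by exact_mod_cast hg
  have hmr : 2 * (m : ℝ) = h * (h - 1) := by
    have := congrArg (Nat.cast : ℕ → ℝ) hcard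
    push_cast [Nat.cast_sub hh1] at this
    exact this
  have t1 := arith_term M n 1 1 1 (2 * δ + ε / 2) δ ((g : ℝ) ^ 2) (2 - 2 * δ - ε)
    (by positivity) hn hM (by push_cast; linarith)
  have t2 := arith_term M n 2 0 1 (2 * δ + ε / 2) δ ((g : ℝ) ^ 4) (2 - 2 * δ - ε)
    (by positivity) hn hM (by push_cast; linarith)
  have t3 := arith_term M n (a + 1) 1 a (2 * δ + ε / 2) δ ((g : ℝ) ^ (3 * a)) (2 - 2 * δ - ε)
    (by positivity) hn hM (by push_cast; nlinarith)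
  have t4 := arith_term M n m h m (2 * δ + ε / 2) δ (((g : ℝ) ^ 2) ^ m) (2 - 2 * δ - ε)
    (by positivity) hn hM (by
      have h2 : (0 : ℝ) ≤ h := by positivity
      have h3 : (h : ℝ) * 1 ≤ h * (((h : ℝ) - 1) * (ε / 4)) :=
        mul_le_mul_of_nonneg_left hh h2
      have h4 : (h : ℝ) ≤ m * (ε / 2) := by
        have : 2 * (m : ℝ) * (ε / 4) = h * (((h : ℝ) - 1) * (ε / 4)) := by
          rw [hmr]
          ring
        linarith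
      have h5 : (2 - (2 * δ + ε / 2)) * (m : ℝ) + h + m * (2 * δ - 2) = h - m * (ε / 2) := by
        ring
      rw [h5]
      linarith)
  rw [badq, ← hm]
  have e1 : (M : ℝ) * (g : ℝ) ^ 2 * n * (4 * (n : ℝ) ^ (δ - 1)) ^ 2 =
      (M : ℝ) ^ 1 * (g : ℝ) ^ 2 * (n : ℝ) ^ 1 * (4 * (n : ℝ) ^ (δ - 1)) ^ (2 * 1) := by
    simp
  have e2 : (M : ℝ) ^ 2 * (g : ℝ) ^ 4 * (4 * (n : ℝ) ^ (δ - 1)) ^ 2 =
      (M : ℝ) ^ 2 * (g : ℝ) ^ 4 * (n : ℝ) ^ 0 * (4 * (n : ℝ) ^ (δ - 1)) ^ (2 * 1) := by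
    simp
  have e3 : (M : ℝ) ^ (a + 1) * (g : ℝ) ^ (3 * a) * n * (4 * (n : ℝ) ^ (δ - 1)) ^ (2 * a) =
      (M : ℝ) ^ (a + 1) * (g : ℝ) ^ (3 * a) * (n : ℝ) ^ 1 *
        (4 * (n : ℝ) ^ (δ - 1)) ^ (2 * a) := by
    simp
  have e4 : ((M : ℝ) * (g : ℝ) ^ 2) ^ m * (n : ℝ) ^ h * (4 * (n : ℝ) ^ (δ - 1)) ^ (2 * m) =
      (M : ℝ) ^ m * ((g : ℝ) ^ 2) ^ m * (n : ℝ) ^ h *
        (4 * (n : ℝ) ^ (δ - 1)) ^ (2 * m) := by
    rw [mul_pow]
  rw [e1, e2, e3, e4]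
  have h5 : (0 : ℝ) ≤ (n : ℝ) ^ (2 - 2 * δ - ε) := by positivity
  have g2 : (g : ℝ) ^ 2 ≤ (g : ℝ) ^ (4 + 3 * a + 2 * m) :=
    pow_le_pow_right₀ hg1 (by omega)
  have g4 : (g : ℝ) ^ 4 ≤ (g : ℝ) ^ (4 + 3 * a + 2 * m) :=
    pow_le_pow_right₀ hg1 (by omega)
  have g3 : (g : ℝ) ^ (3 * a) ≤ (g : ℝ) ^ (4 + 3 * a + 2 * m) :=
    pow_le_pow_right₀ hg1 (by omega)
  have gm : ((g : ℝ) ^ 2) ^ m ≤ (g : ℝ) ^ (4 + 3 * a + 2 * m) := by
    rw [← pow_mul]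
    exact pow_le_pow_right₀ hg1 (by omega)
  set Y : ℝ := (g : ℝ) ^ (4 + 3 * a + 2 * m) with hY
  calc _ ≤ (g : ℝ) ^ 2 * 16 ^ 1 * (n : ℝ) ^ (2 - 2 * δ - ε) +
      (g : ℝ) ^ 4 * 16 ^ 1 * (n : ℝ) ^ (2 - 2 * δ - ε) +
      (g : ℝ) ^ (3 * a) * 16 ^ a * (n : ℝ) ^ (2 - 2 * δ - ε) +
      ((g : ℝ) ^ 2) ^ m * 16 ^ m * (n : ℝ) ^ (2 - 2 * δ - ε) :=
        add_le_add (add_le_add (add_le_add t1 t2) t3) t4
    _ ≤ Y * 16 ^ 1 * (n : ℝ) ^ (2 - 2 * δ - ε) + Y * 16 ^ 1 * (n : ℝ) ^ (2 - 2 * δ - ε) +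
      Y * 16 ^ a * (n : ℝ) ^ (2 - 2 * δ - ε) +
      Y * 16 ^ m * (n : ℝ) ^ (2 - 2 * δ - ε) := by
        gcongr
    _ = _ := by ring

/-- powers of `z + log n` are at most small powers of `n` -/
private theorem arith_log (z D : ℕ) (hD : 2 ≤ D) {s : ℝ} (hs : 0 < s) :
    ∀ᶠ n : ℕ in Filter.atTop, ((z : ℝ) + Real.logb 2 n) ^ D ≤ (n : ℝ) ^ s := by
  have hD0 : (0 : ℝ) < D := by
    have : (2 : ℝ) ≤ D := by exact_mod_cast hD
    linarith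
  set r : ℝ := s / (2 * D) with hr
  have hr0 : 0 < r := by positivity
  have hl2 : (0 : ℝ) < Real.log 2 := Real.log_pos (by norm_num)
  filter_upwards [Filter.eventually_ge_atTop 1,
    arith_pow (show s / 2 < s by linarith) (((z : ℝ) + 1 / (r * Real.log 2)) ^ D)] with n hn f
  have hn1 : (1 : ℝ) ≤ n := by exact_mod_cast hn
  have hn0 : (0 : ℝ) < n := by linarith
  have h1 : (1 : ℝ) ≤ (n : ℝ) ^ r := Real.one_le_rpow hn1 hr0.le
  have h2 : Real.logb 2 n ≤ 1 / (r * Real.log 2) * (n : ℝ) ^ r := by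
    have h3 := Real.log_le_rpow_div hn0.le hr0
    rw [Real.logb, div_le_iff₀ hl2]
    refine h3.trans (le_of_eq ?_)
    field_simp
  have h4 : (z : ℝ) ≤ z * (n : ℝ) ^ r := le_mul_of_one_le_right (by positivity) h1
  have h5 : (0 : ℝ) ≤ Real.logb 2 n := Real.logb_nonneg (by norm_num) hn1
  calc ((z : ℝ) + Real.logb 2 n) ^ D
      ≤ (((z : ℝ) + 1 / (r * Real.log 2)) * (n : ℝ) ^ r) ^ D := by
        refine pow_le_pow_left₀ (by positivity) ?_ D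
        rw [add_mul]
        linarith
    _ = ((z : ℝ) + 1 / (r * Real.log 2)) ^ D * (n : ℝ) ^ (s / 2) := by
        rw [mul_pow, ← Real.rpow_natCast ((n : ℝ) ^ r), ← Real.rpow_mul hn0.le]
        congr 2
        rw [hr]
        field_simp
    _ ≤ (n : ℝ) ^ s := f

theorem arith (δ ε : ℝ) (hδ : 0 ≤ δ) (hε : 0 < ε) (hδε : 2 * δ + ε ≤ 1) : ∃ a h z n₀ : ℕ,
    1 ≤ a ∧ 2 ≤ h ∧ a * h ^ 2 ≤ z ∧ ∀ n ≥ n₀, ∀ K : ℕ, 1 ≤ K →
      (K : ℝ) ≤ ε / 16 * Real.logb 2 n →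
      z + 2 * K ≤ Nat.sqrt n ∧ 1 ≤ n - (Nat.sqrt n + 2) ∧
      2 * ((Nat.sqrt n + 2 : ℕ) : ℝ) * n ≤ (n : ℝ) ^ (2 - δ - ε / 16) ∧
      1 ≤ 4 * (n : ℝ) ^ (δ - 1) * ((n - (Nat.sqrt n + 2) : ℕ) : ℝ) ∧
      ∃ (G B : ℕ) (b : ℝ), 0 < B ∧ 0 < b ∧
        (4 : ℝ) ^ (K + 1) / B ≤ (1 / 2 * (n : ℝ) ^ (-(ε / (16 * K)))) ^ K / 2 ∧
        badq (G * B) (z + 2 * K) n (4 * (n : ℝ) ^ (δ - 1)) a h ≤ b ∧
        (n : ℝ) ^ (2 - 2 * δ - 7 / 8 * ε) ≤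
          (1 / 2 * (n : ℝ) ^ (-(ε / (16 * K)))) ^ K * G / 4 - 2 * b - 1 := by
  set e : ℝ := 7 / 8 * ε with he
  have he0 : 0 < e := by positivity
  have hδe : 2 * δ + e ≤ 1 := by linarith
  obtain ⟨a, ha⟩ := exists_nat_ge (4 / e)
  obtain ⟨h, hh⟩ := exists_nat_ge (4 / e + 1)
  have ha' : 2 ≤ a * (e / 2) := by
    have := mul_le_mul_of_nonneg_right ha he0.le
    rw [div_mul_cancel₀ _ he0.ne'] at this
    linarith
  have hh' : 1 ≤ ((h : ℝ) - 1) * (e / 4) := by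
    have h1 : 4 / e ≤ (h : ℝ) - 1 := by linarith
    have h2 := mul_le_mul_of_nonneg_right h1 he0.le
    rw [div_mul_cancel₀ _ he0.ne'] at h2
    linarith
  have ha1 : 1 ≤ a := by
    rcases Nat.eq_zero_or_pos a with h0 | h0
    · subst h0
      exfalso
      push_cast at ha'
      linarith
    · exact h0
  have hh2 : 2 ≤ h := by
    by_contra hcon
    have h1 : h ≤ 1 := by omega
    have h2 : (h : ℝ) ≤ 1 := by exact_mod_cast h1
    nlinarith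
  set z : ℕ := a * h ^ 2 with hz
  have hz1 : 1 ≤ z := by
    rw [hz]
    exact Nat.mul_pos ha1 (by positivity)
  obtain ⟨C, D, hC, hD, hbad⟩ := arith_bad a h δ e hδ he0 hδe ha' hh' (by omega)
  have hε64 : 0 < ε / 64 := by positivity
  have ev := (Filter.eventually_ge_atTop 100).and ((arith_log z D hD hε64).and
    ((arith_pow (show (3 / 2 : ℝ) < 2 - δ - ε / 16 by linarith) 6).and
    ((arith_pow (show (0 : ℝ) < 2 - 2 * δ - 11 / 16 * ε by linarith) 90).and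
    ((arith_pow (show (0 : ℝ) < 2 - 2 * δ - 13 / 16 * ε by linarith) 160).and
    ((arith_pow (show 2 - 2 * δ - 7 / 8 * ε < 2 - 2 * δ - 13 / 16 * ε by linarith) 160).and
    (arith_pow (show 2 - 2 * δ - 55 / 64 * ε < 2 - 2 * δ - 13 / 16 * ε by linarith)
      (320 * C)))))))
  obtain ⟨n₀, hn₀⟩ := Filter.eventually_atTop.1 ev
  refine ⟨a, h, z, n₀, ha1, hh2, le_rfl, ?_⟩
  intro n hn K hK1 hK
  obtain ⟨hn100, fL, f1, f2, f3, f4, f5⟩ := hn₀ n hn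
  have hnr : (100 : ℝ) ≤ n := by exact_mod_cast hn100
  have hn0 : (0 : ℝ) < n := by linarith
  have hn1 : (1 : ℝ) ≤ n := by linarith
  have hlog : (0 : ℝ) ≤ Real.logb 2 n := Real.logb_nonneg (by norm_num) hn1
  have hs1 : Nat.sqrt n * Nat.sqrt n ≤ n := Nat.sqrt_le n
  have hs10 : 10 ≤ Nat.sqrt n := Nat.le_sqrt.2 (by omega)
  have hsn : Nat.sqrt n * 10 ≤ n := le_trans (Nat.mul_le_mul_left _ hs10) hs1
  have hN2 : n ≤ 2 * (n - (Nat.sqrt n + 2)) := by omega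
  have hN2r : (n : ℝ) / 2 ≤ ((n - (Nat.sqrt n + 2) : ℕ) : ℝ) := by
    have : (n : ℝ) ≤ 2 * ((n - (Nat.sqrt n + 2) : ℕ) : ℝ) := by exact_mod_cast hN2
    linarith
  -- the size of `g = z + 2K`
  have hgL : ((z + 2 * K : ℕ) : ℝ) ≤ (z : ℝ) + Real.logb 2 n := by
    push_cast
    have h1 : ε / 16 * Real.logb 2 n ≤ 1 / 2 * Real.logb 2 n :=
      mul_le_mul_of_nonneg_right (by linarith) hlog
    linarith
  have hg1 : (1 : ℝ) ≤ ((z + 2 * K : ℕ) : ℝ) := by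
    have : 1 ≤ z + 2 * K := by omega
    exact_mod_cast this
  have hgD : ((z + 2 * K : ℕ) : ℝ) ^ D ≤ (n : ℝ) ^ (ε / 64) :=
    (pow_le_pow_left₀ (by positivity) hgL D).trans fL
  have hg2 : ((z + 2 * K : ℕ) : ℝ) ^ 2 ≤ n := by
    refine (pow_le_pow_right₀ hg1 hD).trans (hgD.trans ?_)
    calc (n : ℝ) ^ (ε / 64) ≤ (n : ℝ) ^ (1 : ℝ) :=
          Real.rpow_le_rpow_of_exponent_le hn1 (by linarith)
      _ = n := Real.rpow_one _
  have hsq : z + 2 * K ≤ Nat.sqrt n := by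
    rw [Nat.le_sqrt']
    exact_mod_cast hg2
  refine ⟨hsq, by omega, ?_, ?_, ?_⟩
  · have g3 : ((Nat.sqrt n : ℕ) : ℝ) ≤ (n : ℝ) ^ (1 / 2 : ℝ) := by
      rw [← Real.sqrt_eq_rpow]
      exact Real.nat_sqrt_le_real_sqrt
    have g4 : (n : ℝ) ^ (3 / 2 : ℝ) = (n : ℝ) ^ (1 / 2 : ℝ) * n := by
      nth_rewrite 3 [← Real.rpow_one (n : ℝ)]
      rw [← Real.rpow_add hn0]
      norm_num
    have g5 : (10 : ℝ) ≤ (Nat.sqrt n : ℕ) := by exact_mod_cast hs10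
    refine le_trans ?_ f1
    rw [g4, ← mul_assoc]
    refine mul_le_mul_of_nonneg_right ?_ hn0.le
    push_cast
    linarith
  · have g1 : (n : ℝ) ^ (δ - 1) * n = (n : ℝ) ^ δ := by
      nth_rewrite 2 [← Real.rpow_one (n : ℝ)]
      rw [← Real.rpow_add hn0]
      congr 1
      ring
    have g2 : (1 : ℝ) ≤ (n : ℝ) ^ δ := Real.one_le_rpow hn1 hδ
    have g3 : (0 : ℝ) ≤ (n : ℝ) ^ (δ - 1) := by positivity
    have g4 := mul_le_mul_of_nonneg_left hN2r g3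
    rw [mul_div_assoc', g1] at g4
    linarith
  · have h2K : (2 : ℝ) ^ K ≤ (n : ℝ) ^ (ε / 16) := by
      have h2 : (n : ℝ) ^ (ε / 16) = (2 : ℝ) ^ (Real.logb 2 n * (ε / 16)) := by
        rw [Real.rpow_mul (by norm_num), Real.rpow_logb (by norm_num) (by norm_num) hn0]
      rw [h2, ← Real.rpow_natCast]
      refine Real.rpow_le_rpow_of_exponent_le (by norm_num) ?_
      linarith
    have h4K : (4 : ℝ) ^ K ≤ (n : ℝ) ^ (ε / 8) := by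
      have h1 : (4 : ℝ) ^ K = (2 : ℝ) ^ K * (2 : ℝ) ^ K := by
        rw [← mul_pow]
        norm_num
      have h2 : (n : ℝ) ^ (ε / 8) = (n : ℝ) ^ (ε / 16) * (n : ℝ) ^ (ε / 16) := by
        rw [← Real.rpow_add hn0]
        congr 1
        ring
      rw [h1, h2]
      exact mul_le_mul h2K h2K (by positivity) (by positivity)
    have hKr : (0 : ℝ) < K := by exact_mod_cast hK1
    -- the factor `λ`
    have hlam : (n : ℝ) ^ (-(ε / 8)) ≤ (1 / 2 * (n : ℝ) ^ (-(ε / (16 * K)))) ^ K := by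
      have h1 : ((n : ℝ) ^ (-(ε / (16 * K)))) ^ K = (n : ℝ) ^ (-(ε / 16)) := by
        rw [← Real.rpow_natCast, ← Real.rpow_mul hn0.le]
        congr 1
        field_simp
      have h2 : (n : ℝ) ^ (-(ε / 8)) = (n : ℝ) ^ (-(ε / 16)) * (n : ℝ) ^ (-(ε / 16)) := by
        rw [← Real.rpow_add hn0]
        congr 1
        ring
      have h3 : (n : ℝ) ^ (-(ε / 16)) ≤ (1 / 2 : ℝ) ^ K := by
        rw [Real.rpow_neg hn0.le, one_div, inv_pow]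
        exact inv_anti₀ (by positivity) h2K
      rw [mul_pow, h1, h2]
      exact mul_le_mul_of_nonneg_right h3 (by positivity)
    set lam : ℝ := (1 / 2 * (n : ℝ) ^ (-(ε / (16 * K)))) ^ K with hlamdef
    have hlam0 : 0 < lam := by positivity
    set B : ℕ := ⌈8 * (n : ℝ) ^ (ε / 4)⌉₊ with hB
    have hx1 : (1 : ℝ) ≤ (n : ℝ) ^ (ε / 4) := Real.one_le_rpow hn1 (by positivity)
    have hBl : 8 * (n : ℝ) ^ (ε / 4) ≤ (B : ℝ) := Nat.le_ceil _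
    have hBu : (B : ℝ) ≤ 9 * (n : ℝ) ^ (ε / 4) := by
      have := (Nat.ceil_lt_add_one (show (0 : ℝ) ≤ 8 * (n : ℝ) ^ (ε / 4) by positivity)).le
      rw [← hB] at this
      linarith
    have hB0 : (0 : ℝ) < B := by linarith
    have hBn : 0 < B := by exact_mod_cast hB0
    set G : ℕ := ⌊(n : ℝ) ^ (2 - (2 * δ + e / 2)) / (B : ℝ)⌋₊ with hG
    have hGB : ((G * B : ℕ) : ℝ) ≤ (n : ℝ) ^ (2 - (2 * δ + e / 2)) := by
      push_cast
      rw [← le_div_iff₀ hB0]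
      exact Nat.floor_le (by positivity)
    have hGl : (n : ℝ) ^ (2 - 2 * δ - 11 / 16 * ε) / 10 ≤ (G : ℝ) := by
      have h1 := Nat.sub_one_lt_floor ((n : ℝ) ^ (2 - (2 * δ + e / 2)) / (B : ℝ))
      rw [← hG] at h1
      have h2 : (n : ℝ) ^ (2 - 2 * δ - 11 / 16 * ε) / 9 ≤
          (n : ℝ) ^ (2 - (2 * δ + e / 2)) / (B : ℝ) := by
        rw [div_le_div_iff₀ (by norm_num) hB0]
        have h3 : (n : ℝ) ^ (2 - (2 * δ + e / 2)) =
            (n : ℝ) ^ (2 - 2 * δ - 11 / 16 * ε) * (n : ℝ) ^ (ε / 4) := by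
          rw [← Real.rpow_add hn0]
          congr 1
          rw [he]
          ring
        rw [h3]
        have h4 : (0 : ℝ) ≤ (n : ℝ) ^ (2 - 2 * δ - 11 / 16 * ε) := by positivity
        have h5 := mul_le_mul_of_nonneg_left hBu h4
        linarith
      rw [Real.rpow_zero, mul_one] at f2
      linarith
    have hlG : (n : ℝ) ^ (2 - 2 * δ - 13 / 16 * ε) / 40 ≤ lam * G / 4 := by
      have h1 : (n : ℝ) ^ (2 - 2 * δ - 13 / 16 * ε) =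
          (n : ℝ) ^ (-(ε / 8)) * (n : ℝ) ^ (2 - 2 * δ - 11 / 16 * ε) := by
        rw [← Real.rpow_add hn0]
        congr 1
        ring
      have h2 : (n : ℝ) ^ (-(ε / 8)) * ((n : ℝ) ^ (2 - 2 * δ - 11 / 16 * ε) / 10) ≤ lam * G :=
        mul_le_mul hlam hGl (by positivity) hlam0.le
      rw [h1]
      linarith
    refine ⟨G, B, C * (n : ℝ) ^ (2 - 2 * δ - 55 / 64 * ε), hBn, by positivity, ?_, ?_, ?_⟩
    · rw [div_le_iff₀ hB0]
      have h1 : (n : ℝ) ^ (ε / 8) = (n : ℝ) ^ (-(ε / 8)) * (n : ℝ) ^ (ε / 4) := by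
        rw [← Real.rpow_add hn0]
        congr 1
        ring
      have h2 : (n : ℝ) ^ (-(ε / 8)) * (8 * (n : ℝ) ^ (ε / 4)) ≤ lam * B :=
        mul_le_mul hlam hBl (by positivity) hlam0.le
      rw [pow_succ]
      linarith
    · refine (hbad n _ _ (by omega) (by omega) hGB).trans ?_
      have h1 : (n : ℝ) ^ (2 - 2 * δ - 55 / 64 * ε) =
          (n : ℝ) ^ (ε / 64) * (n : ℝ) ^ (2 - 2 * δ - e) := by
        rw [← Real.rpow_add hn0]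
        congr 1
        rw [he]
        ring
      rw [h1, mul_assoc]
      refine mul_le_mul_of_nonneg_left ?_ hC.le
      exact mul_le_mul_of_nonneg_right hgD (by positivity)
    · rw [Real.rpow_zero, mul_one] at f3
      linarith

end Pool.Agent.RW
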