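import Mathlib

/-!
# Sums over systems of gadgets (general distribution)
-/

set_option autoImplicit false

namespace Pool.Agent.RW

open Finset

/-- the number of systems whose value at `s` is in a given set -/
private theorem card_at {α : Type} [Fintype α] [DecidableEq α] {B : ℕ} (Sf : Finset α)
    (s : Fin B) :
    (univ.filter fun χ : Fin B → α => χ s ∈ Sf).card * Fintype.card α =
      Sf.card * Fintype.card α ^ B := by
  classical
  have h1 : (univ.filter fun χ : Fin B → α => χ s ∈ Sf) =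
      Fintype.piFinset (fun i => if i = s then Sf else (univ : Finset α)) := by
    ext χ
    simp only [Finset.mem_filter, Finset.mem_univ, true_and, Fintype.mem_piFinset]
    constructor
    · intro h i
      by_cases hi : i = s
      · rw [if_pos hi, hi]; exact h
      · rw [if_neg hi]; exact Finset.mem_univ _
    · intro h
      have h2 := h s
      rw [if_pos rfl] at h2
      exact h2
  rw [h1, Fintype.card_piFinset]
  have h3 : ∀ i ∈ univ.erase s, (if i = s then Sf else (univ : Finset α)).card =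
      Fintype.card α := by
    intro i hi
    rw [if_neg (Finset.ne_of_mem_erase hi), Finset.card_univ]
  rw [← Finset.mul_prod_erase univ _ (Finset.mem_univ s), if_pos rfl,
    Finset.prod_congr rfl h3, Finset.prod_const, Finset.card_erase_of_mem (Finset.mem_univ s),
    Finset.card_univ, Fintype.card_fin, mul_assoc, ← pow_succ]
  have hB : B - 1 + 1 = B := by
    have := s.pos
    omega
  rw [hB]

open Classical in
theorem good_sum {Ω : Type} [Fintype Ω] (G B L : ℕ) (S : Finset Ω) (ρ : ℝ)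
    (hB : 0 < B) (h0 : 0 ≤ ρ) (hρ : ρ * Fintype.card Ω ≤ (S.card : ℝ))
    (hL : (L : ℝ) / B ≤ ρ / 2) :
    ∑ φ : Fin G × Fin B → Ω, ∑ σ : Fin G → Fin B, (1 / 2 : ℝ) ^
      (univ.filter fun τ : Fin G => L ≤ (univ.filter fun s : Fin B =>
        φ (τ, s) ∈ S).card ∧ φ (τ, σ τ) ∈ S).card ≤
      (Fintype.card (Fin G × Fin B → Ω) : ℝ) * (B : ℝ) ^ G * (2 : ℝ) ^ (-(ρ * G / 4)) := by
  set M : ℝ := (Fintype.card Ω : ℝ) with hM
  have hM0 : 0 ≤ M := by positivity
  have hBR : (0 : ℝ) < B := by exact_mod_cast hB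
  let E : (Fin G × Fin B → Ω) ≃ (Fin G → (Fin B → Ω)) :=
    { toFun := fun φ τ s => φ (τ, s)
      invFun := fun ψ x => ψ x.1 x.2
      left_inv := fun φ => rfl
      right_inv := fun ψ => rfl }
  let A : (Fin B → Ω) → ℕ := fun χ => (univ.filter fun s => χ s ∈ S).card
  let c : (Fin B → Ω) → Fin B → ℝ := fun χ s =>
    if L ≤ A χ ∧ χ s ∈ S then (1 / 2 : ℝ) else 1
  have hprod : ∀ (ψ : Fin G → (Fin B → Ω)) (σ : Fin G → Fin B),
      (1 / 2 : ℝ) ^ (univ.filter fun τ : Fin G => L ≤ A (ψ τ) ∧ ψ τ (σ τ) ∈ S).card =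
        ∏ τ, c (ψ τ) (σ τ) := by
    intro ψ σ
    simp only [c]
    rw [Finset.prod_ite, Finset.prod_const, Finset.prod_const_one, mul_one]
  have htot : ∑ φ : Fin G × Fin B → Ω, ∑ σ : Fin G → Fin B, (1 / 2 : ℝ) ^
      (univ.filter fun τ : Fin G => L ≤ (univ.filter fun s : Fin B =>
        φ (τ, s) ∈ S).card ∧ φ (τ, σ τ) ∈ S).card =
      (∑ χ : Fin B → Ω, ∑ s, c χ s) ^ G := by
    have h1 : (∑ χ : Fin B → Ω, ∑ s, c χ s) ^ G =
        ∑ ψ : Fin G → (Fin B → Ω), ∑ σ : Fin G → Fin B, ∏ τ, c (ψ τ) (σ τ) := by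
      rw [Fintype.sum_pow]
      refine Finset.sum_congr rfl (fun ψ _ => ?_)
      rw [Finset.prod_univ_sum, Fintype.piFinset_univ]
    rw [h1, ← Equiv.sum_comp E]
    refine Finset.sum_congr rfl (fun φ _ => Finset.sum_congr rfl (fun σ _ => ?_))
    exact hprod (E φ) σ
  have hcle : ∀ χ : Fin B → Ω, ∑ s, c χ s ≤ B - ((A χ : ℝ) - L) / 2 := by
    intro χ
    by_cases hLA : L ≤ A χ
    · have h2 : ∀ s, c χ s = 1 - (if χ s ∈ S then (1 / 2 : ℝ) else 0) := by
        intro s
        simp only [c]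
        by_cases hs : χ s ∈ S
        · rw [if_pos ⟨hLA, hs⟩, if_pos hs]; norm_num
        · rw [if_neg (fun h => hs h.2), if_neg hs]; norm_num
      rw [Finset.sum_congr rfl (fun s _ => h2 s), Finset.sum_sub_distrib, Finset.sum_const,
        Finset.card_univ, Fintype.card_fin, ← Finset.sum_filter, Finset.sum_const,
        nsmul_eq_mul, nsmul_eq_mul, mul_one]
      have h3 : (0 : ℝ) ≤ L := Nat.cast_nonneg L
      have h4 : ((univ.filter fun s => χ s ∈ S).card : ℝ) = (A χ : ℝ) := rfl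
      rw [h4]
      linarith
    · have h2 : ∀ s, c χ s ≤ 1 := by
        intro s
        simp only [c]
        split_ifs
        · norm_num
        · exact le_refl _
      have h3 : ∑ s, c χ s ≤ ∑ s : Fin B, (1 : ℝ) := Finset.sum_le_sum (fun s _ => h2 s)
      rw [Finset.sum_const, Finset.card_univ, Fintype.card_fin, nsmul_eq_mul, mul_one] at h3
      have h5 : (A χ : ℝ) < L := by exact_mod_cast Nat.lt_of_not_le hLA
      linarith
  have hAsum : ρ * (B * M ^ B) ≤ ∑ χ : Fin B → Ω, (A χ : ℝ) := by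
    have h6 : ∑ χ : Fin B → Ω, (A χ : ℝ) =
        ∑ s : Fin B, ((univ.filter fun χ : Fin B → Ω => χ s ∈ S).card : ℝ) := by
      have h7 : ∀ χ : Fin B → Ω, (A χ : ℝ) = ∑ s, if χ s ∈ S then (1 : ℝ) else 0 := by
        intro χ
        rw [← Finset.sum_filter, Finset.sum_const, nsmul_eq_mul, mul_one]
      have h8 : ∀ s : Fin B, ((univ.filter fun χ : Fin B → Ω => χ s ∈ S).card : ℝ) =
          ∑ χ : Fin B → Ω, if χ s ∈ S then (1 : ℝ) else 0 := by
        intro s
        rw [← Finset.sum_filter, Finset.sum_const, nsmul_eq_mul, mul_one]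
      rw [Finset.sum_congr rfl (fun χ _ => h7 χ), Finset.sum_congr rfl (fun s _ => h8 s),
        Finset.sum_comm]
    have h9 : ∀ s : Fin B, ρ * M ^ B ≤
        ((univ.filter fun χ : Fin B → Ω => χ s ∈ S).card : ℝ) := by
      intro s
      have h10 := card_at S s
      have h13 : ((univ.filter fun χ : Fin B → Ω => χ s ∈ S).card : ℝ) * M =
          (S.card : ℝ) * M ^ B := by
        have h12 : ((univ.filter fun χ : Fin B → Ω => χ s ∈ S).card : ℝ) *
            (Fintype.card Ω : ℝ) = (S.card : ℝ) * (Fintype.card Ω : ℝ) ^ B := by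
          exact_mod_cast h10
        exact h12
      rcases hM0.eq_or_lt with hz | hpos
      · rw [← hz, zero_pow hB.ne', mul_zero]
        exact Nat.cast_nonneg _
      · have h14 : ρ * M ^ B * M ≤
            ((univ.filter fun χ : Fin B → Ω => χ s ∈ S).card : ℝ) * M := by
          rw [h13]
          calc ρ * M ^ B * M = (ρ * M) * M ^ B := by ring
            _ ≤ (S.card : ℝ) * M ^ B :=
              mul_le_mul_of_nonneg_right hρ (pow_nonneg hM0 _)
        exact le_of_mul_le_mul_right h14 hpos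
    rw [h6]
    calc ρ * (B * M ^ B) = ∑ s : Fin B, ρ * M ^ B := by
          rw [Finset.sum_const, Finset.card_univ, Fintype.card_fin, nsmul_eq_mul]
          ring
      _ ≤ _ := Finset.sum_le_sum (fun s _ => h9 s)
  have hLB : (L : ℝ) ≤ ρ * B / 2 := by
    rw [div_le_iff₀ hBR] at hL
    linarith
  have hMB : (0 : ℝ) ≤ M ^ B := pow_nonneg hM0 _
  have hbase : ∑ χ : Fin B → Ω, ∑ s, c χ s ≤ B * M ^ B * (1 - ρ / 4) := by
    have h15 : ∑ χ : Fin B → Ω, ∑ s, c χ s ≤
        ∑ χ : Fin B → Ω, ((B : ℝ) - ((A χ : ℝ) - L) / 2) :=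
      Finset.sum_le_sum (fun χ _ => hcle χ)
    have hcard : (Fintype.card (Fin B → Ω) : ℝ) = M ^ B := by
      rw [Fintype.card_fun, Fintype.card_fin, Nat.cast_pow]
    have h16 : ∑ χ : Fin B → Ω, ((B : ℝ) - ((A χ : ℝ) - L) / 2) =
        (B + L / 2) * M ^ B - (∑ χ : Fin B → Ω, (A χ : ℝ)) / 2 := by
      have h17 : ∀ χ : Fin B → Ω, ((B : ℝ) - ((A χ : ℝ) - L) / 2) =
          (B + L / 2) - (A χ : ℝ) / 2 := by
        intro χ
        ring
      rw [Finset.sum_congr rfl (fun χ _ => h17 χ), Finset.sum_sub_distrib, Finset.sum_const,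
        Finset.card_univ, nsmul_eq_mul, hcard, ← Finset.sum_div]
      ring
    rw [h16] at h15
    have h18 : (L : ℝ) * M ^ B ≤ ρ * B / 2 * M ^ B := mul_le_mul_of_nonneg_right hLB hMB
    nlinarith [h15, h18, hAsum]
  have hbase0 : 0 ≤ ∑ χ : Fin B → Ω, ∑ s, c χ s := by
    refine Finset.sum_nonneg (fun χ _ => Finset.sum_nonneg (fun s _ => ?_))
    simp only [c]
    split_ifs
    · norm_num
    · norm_num
  have hy : 1 - ρ / 4 ≤ (2 : ℝ) ^ (-(ρ / 4)) := by
    rw [Real.rpow_def_of_pos (by norm_num)]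
    have h4 := Real.add_one_le_exp (Real.log 2 * (-(ρ / 4)))
    have h5 : Real.log 2 ≤ 1 := by
      have := Real.log_two_lt_d9
      linarith
    have h6 : Real.log 2 * (ρ / 4) ≤ 1 * (ρ / 4) :=
      mul_le_mul_of_nonneg_right h5 (by linarith)
    linarith
  rw [htot]
  calc (∑ χ : Fin B → Ω, ∑ s, c χ s) ^ G
      ≤ (B * M ^ B * (2 : ℝ) ^ (-(ρ / 4))) ^ G := by
        refine pow_le_pow_left₀ hbase0 (hbase.trans ?_) G
        exact mul_le_mul_of_nonneg_left hy (by positivity)
    _ = _ := by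
        have h19 : (Fintype.card (Fin G × Fin B → Ω) : ℝ) = (M ^ B) ^ G := by
          rw [Fintype.card_fun, Fintype.card_prod, Fintype.card_fin, Fintype.card_fin,
            Nat.cast_pow, ← pow_mul, mul_comm B G]
        have h20 : -(ρ / 4) * (G : ℝ) = -(ρ * G / 4) := by ring
        rw [mul_pow, mul_pow, ← Real.rpow_natCast ((2 : ℝ) ^ (-(ρ / 4))) G,
          ← Real.rpow_mul (by norm_num), h19, h20]
        ring

end Pool.Agent.RW
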