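import Mathlib
import Pool.Agent.Lib.MP_0a1b52_lc_RQ.Core
import Pool.Agent.Lib.MP_0a1b52_lc_RV.Pair
import Pool.Agent.Lib.MP_0a1b52_lc_RW.Good
import Pool.Agent.Lib.MP_0a1b52_lc_RW.Bad

/-!
# Local proofs, fixed sets and families of subsets: one system of graphs
-/

set_option autoImplicit false

namespace Pool.Agent.RW

open Finset Pool.Agent.FP Pool.Agent.RP Pool.Agent.RK Pool.Agent.RQ Pool.Agent.RV

private theorem core_restrict {I L Jt Vt : Type} {a h : ℕ} {w : I → Jt → Vt} (hw : NoBad a h w)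
    (e : L → I) (he : Function.Injective e) : NoBad a h fun l => w (e l) where
  inj l := hw.inj (e l)
  share i i' j k j' k' hi hj hj' e1 e2 :=
    hw.share (e i) (e i') j k j' k' (fun h => hi (he h)) hj hj' e1 e2
  fan i₀ f j i k k' hj hi hne hk e1 e2 :=
    hw.fan (e i₀) f j (fun l => e (i l)) k k' hj (fun a b hab => hi (he hab))
      (fun l h => hne l (he h)) hk e1 e2
  web f i k k' hi hk e1 e2 :=
    hw.web f (fun q => e (i q)) k k' (fun a b hab => hi (he hab)) hk e1 e2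

open Classical in
/-- the contents with all variables in the sets `X t` have the right density -/
private theorem core_dens {n K z N : ℕ} (Z X : Fin K → Finset (EdgeVar n)) (ρ : ℝ)
    (hρ : ρ * ∏ t, (((Z t).filter fun e => (e.1.2 : ℕ) < N).card : ℝ) ≤
      ∏ t, (((X t ∩ Z t).filter fun e => (e.1.2 : ℕ) < N).card : ℝ)) :
    ρ * Fintype.card (Cont Z z N) ≤
      ((univ.filter fun ω : Cont Z z N => ∀ t, (ω.1 t).1 ∈ X t).card : ℝ) := by
  have h1 : (univ.filter fun ω : Cont Z z N => ∀ t, (ω.1 t).1 ∈ X t) =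
      (Fintype.piFinset fun t => univ.filter
        fun e : {e : EdgeVar n // e ∈ Z t ∧ (e.1.2 : ℕ) < N} => e.1 ∈ X t) ×ˢ
          (univ : Finset (Fin z → Fin N)) := by
    ext ω
    simp only [mem_filter, mem_univ, true_and, mem_product, Fintype.mem_piFinset, and_true]
  have h2 : ∀ t, Fintype.card {e : EdgeVar n // e ∈ Z t ∧ (e.1.2 : ℕ) < N} =
      ((Z t).filter fun e => (e.1.2 : ℕ) < N).card := fun t =>
    Fintype.card_of_subtype _ fun e => mem_filter
  have h3 : ∀ t, (univ.filter fun e : {e : EdgeVar n // e ∈ Z t ∧ (e.1.2 : ℕ) < N} =>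
      e.1 ∈ X t).card = ((X t ∩ Z t).filter fun e => (e.1.2 : ℕ) < N).card := by
    intro t
    rw [← card_map (Function.Embedding.subtype _)]
    congr 1
    ext e
    simp only [mem_map, mem_filter, mem_univ, true_and, Function.Embedding.subtype_apply,
      Subtype.exists, exists_and_left, exists_prop, exists_eq_right_right, mem_inter]
    tauto
  rw [h1, card_product, Fintype.card_piFinset, card_univ, Fintype.card_prod, Fintype.card_pi]
  simp only [h2, h3]
  push_cast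
  rw [← mul_assoc]
  exact mul_le_mul_of_nonneg_right hρ (by positivity)

open Classical in
theorem core {a h n N G B P z : ℕ} (hP : 0 < P) (hN : N + (Nat.sqrt n + 2) ≤ n) (hN1 : 1 ≤ N)
    (ha : 1 ≤ a) (hh : 2 ≤ h) (hz : a * h ^ 2 ≤ z + 2 * (P + 1))
    (hzn : z + 2 * (P + 1) ≤ Nat.sqrt n) (hB : 0 < B) (Z : Fin (P + 1) → Finset (EdgeVar n))
    (q : ℝ) (hq : 0 ≤ q)
    (h1 : ∀ t, (n : ℝ) ≤ q * ((Z t).filter fun e => (e.1.2 : ℕ) < N).card)
    (h2 : 1 ≤ q * N) (b : ℝ) (hb0 : 0 < b)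
    (hb : badq (G * B) (z + 2 * (P + 1)) n q a h ≤ b) :
    ∃ (M : ℕ) (Q : Fin M → EdgeVar n → Bool), 0 < M ∧ (∀ i, ¬ Clq (Q i)) ∧
      ∀ (X : Fin (P + 1) → Finset (EdgeVar n)) (ρ : ℝ), 0 ≤ ρ →
      ρ * ∏ t, (((Z t).filter fun e => (e.1.2 : ℕ) < N).card : ℝ) ≤
        ∏ t, (((X t ∩ Z t).filter fun e => (e.1.2 : ℕ) < N).card : ℝ) →
      (4 : ℝ) ^ (P + 2) / B ≤ ρ / 2 →
      ∀ T : (EdgeVar n → Bool) → Prop, StarK X T → (∀ x, T x → ¬ Clq x) →
        ((univ.filter fun i => T (Q i)).card : ℝ) ≤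
          M * (2 * (2 : ℝ) ^ (2 * b) * (2 : ℝ) ^ (-(ρ * G / 4))) := by
  have hNn : N ≤ n := by omega
  have hn0 : (0 : ℝ) < n := by
    have : 0 < n := by omega
    exact_mod_cast this
  have hne : Nonempty (Cont Z z N) := by
    have hx : ∀ t, Nonempty {e : EdgeVar n // e ∈ Z t ∧ (e.1.2 : ℕ) < N} := by
      intro t
      have h3 : ((Z t).filter fun e => (e.1.2 : ℕ) < N).Nonempty := by
        rw [nonempty_iff_ne_empty]
        intro h0
        have h4 := h1 t
        rw [h0, card_empty, Nat.cast_zero, mul_zero] at h4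
        linarith
      obtain ⟨e, he⟩ := h3
      exact ⟨⟨e, (mem_filter.1 he)⟩⟩
    exact ⟨(fun t => (hx t).some, fun _ => ⟨0, by omega⟩)⟩
  obtain ⟨R, hNB, hR2⟩ := bad_all (I := Fin G × Fin B) (Jt := RK.J (P + 1) z)
    (fun ω : Cont Z z N => vert hNn Z ω) q hq (pair_bound hNn Z q hq h1 h2) a h ha hh
  rw [core_card, Fintype.card_prod (Fin G) (Fin B), Fintype.card_fin, Fintype.card_fin] at hR2
  set U : ℝ := (Fintype.card (Fin G × Fin B → Cont Z z N) : ℝ) with hU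
  have hUpos : 0 < U := by
    rw [hU]
    exact_mod_cast Fintype.card_pos
  -- few functions have a large set `R φ`
  set S1 : Finset (Fin G × Fin B → Cont Z z N) :=
    univ.filter fun φ => 2 * b < ((R φ).card : ℝ) with hS1
  have h3 : (S1.card : ℝ) ≤ U / 2 := by
    have e1 : (S1.card : ℝ) * (2 * b) ≤ ∑ φ, ((R φ).card : ℝ) := by
      calc (S1.card : ℝ) * (2 * b) = ∑ _φ ∈ S1, (2 * b) := by
            rw [Finset.sum_const, nsmul_eq_mul]
        _ ≤ ∑ φ ∈ S1, ((R φ).card : ℝ) := by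
            apply Finset.sum_le_sum
            intro φ hφ
            exact (Finset.mem_filter.mp hφ).2.le
        _ ≤ ∑ φ, ((R φ).card : ℝ) := by
            apply Finset.sum_le_sum_of_subset_of_nonneg (Finset.subset_univ _)
            intro φ _ _
            exact Nat.cast_nonneg _
    have e3 : (S1.card : ℝ) * (2 * b) ≤ U / 2 * (2 * b) := by
      calc (S1.card : ℝ) * (2 * b) ≤ U * b :=
            (e1.trans hR2).trans (mul_le_mul_of_nonneg_left hb hUpos.le)
        _ = U / 2 * (2 * b) := by ring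
    exact le_of_mul_le_mul_right e3 (by linarith)
  let Φ : Type := {φ : Fin G × Fin B → Cont Z z N // ((R φ).card : ℝ) ≤ 2 * b}
  have hΦ : U ≤ 2 * (Fintype.card Φ : ℝ) := by
    have hsub : (univ : Finset (Fin G × Fin B → Cont Z z N)) ⊆
        S1 ∪ univ.filter fun φ => ((R φ).card : ℝ) ≤ 2 * b := by
      intro φ _
      rcases lt_or_ge (2 * b) ((R φ).card : ℝ) with hlt | hge
      · exact Finset.mem_union_left _ (Finset.mem_filter.mpr ⟨Finset.mem_univ _, hlt⟩)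
      · exact Finset.mem_union_right _ (Finset.mem_filter.mpr ⟨Finset.mem_univ _, hge⟩)
    have hle := (Finset.card_le_card hsub).trans (Finset.card_union_le _ _)
    rw [← Fintype.card_subtype (fun φ : Fin G × Fin B → Cont Z z N =>
      ((R φ).card : ℝ) ≤ 2 * b), card_univ] at hle
    have hle' : U ≤ (S1.card : ℝ) + (Fintype.card Φ : ℝ) := by
      rw [hU]
      exact_mod_cast hle
    linarith
  have hΦ0 : (0 : ℝ) < Fintype.card Φ := by linarith
  let Λ : Φ → Finset (Fin G) := fun φ => univ.filter fun τ => ∀ s, (τ, s) ∉ R φ.1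
  let w : Φ → Fin G × Fin B → RK.J (P + 1) z → Fin n := fun φ i => vert hNn Z (φ.1 i)
  have hNB' : ∀ φ : Φ, NoBad a h fun i : {i : Fin G × Fin B // i.1 ∈ Λ φ} => w φ i.1 := by
    intro φ
    exact core_restrict (hNB φ.1) (fun i : {i : Fin G × Fin B // i.1 ∈ Λ φ} =>
      (⟨i.1, (mem_filter.1 i.2).2 i.1.2⟩ : {i // i ∉ R φ.1}))
      fun i i' h => Subtype.ext (congrArg (fun z => z.1) h)
  have hlt : ∀ (ω : Cont Z z N) (j : RK.J (P + 1) z), (vert hNn Z ω j : ℕ) < N := by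
    rintro ω (⟨t, b⟩ | s)
    · have h3 := (ω.1 t).1.2
      have h4 := (ω.1 t).2.2
      cases b
      · exact lt_trans h3 h4
      · exact h4
    · exact (ω.2 s).2
  have hcl : ∀ (φ : Φ) (q : Inp G B P), Clq (core_gr (Λ φ) (w φ) q) ↔
      ∃ i : Fin G × Fin B, i.1 ∈ Λ φ ∧
        ∀ t, (Fin.cons q.2 q.1 : Fin (P + 1) → Fin G × Fin B → Bool) t i = true := by
    intro φ q
    unfold core_gr
    rw [clq_iff (Nat.succ_pos P) (fun i : {i : Fin G × Fin B // i.1 ∈ Λ φ} => w φ i.1)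
      hzn ?_ (hNB' φ).inj ?_ ?_]
    · constructor
      · rintro ⟨i, hi⟩
        exact ⟨i.1, i.2, hi⟩
      · rintro ⟨i, hi, h⟩
        exact ⟨⟨i, hi⟩, h⟩
    · intro i j
      have h4 := hlt (φ.1 i.1) j
      show (vert hNn Z (φ.1 i.1) j : ℕ) + (Nat.sqrt n + 1) ≤ n - 1
      omega
    · intro i i' j k j' k' hne hj e1 e2
      refine (hNB' φ).share i i' j k j' k' hne hj ?_ e1 e2
      rintro rfl
      exact hj ((hNB' φ).inj i (e1.trans e2.symm))
    · intro S hS hcov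
      have hJ := core_card (P + 1) z
      exact (hNB' φ).clique ha hh (by rw [hJ]; exact hz) S (by rw [hJ]; exact hS) hcov
  have hZpos : 0 < (ZZ (Fin G) B P).card := card_pos.2 (ZZ_nonempty P hP hB)
  let E := (Fintype.equivFin (Φ × ↥(ZZ (Fin G) B P))).symm
  have hM : Fintype.card (Φ × ↥(ZZ (Fin G) B P)) = Fintype.card Φ * (ZZ (Fin G) B P).card := by
    rw [Fintype.card_prod, Fintype.card_coe]
  refine ⟨Fintype.card (Φ × ↥(ZZ (Fin G) B P)),
    fun i => core_gr (Λ (E i).1) (w (E i).1) (E i).2.1, ?_, ?_, ?_⟩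
  · rw [hM]
    exact Nat.mul_pos (by exact_mod_cast hΦ0) hZpos
  · intro i hc
    rw [hcl] at hc
    obtain ⟨j, -, hj⟩ := hc
    have h2 := ((mem_ZZ _).1 (E i).2.2).2 j fun k => by
      have h3 := hj k.succ
      rw [Fin.cons_succ] at h3
      exact h3
    have h4 := hj 0
    rw [Fin.cons_zero, h2] at h4
    exact absurd h4 (by simp)
  intro X ρ hρ0 hX hBd T hT hTC
  -- the good gadgets
  let Sg : Finset (Cont Z z N) := univ.filter fun ω => ∀ t, (ω.1 t).1 ∈ X t
  let A' : (Fin G × Fin B → Cont Z z N) → Fin G → Finset (Fin B) := fun φ τ =>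
    univ.filter fun s => φ (τ, s) ∈ Sg
  let A : Φ → Fin G → Finset (Fin B) := fun φ τ => if τ ∈ Λ φ then A' φ.1 τ else ∅
  let f : (Fin G × Fin B → Cont Z z N) → (Fin G → Fin B) → ℝ := fun φ σ =>
    (1 / 2 : ℝ) ^ (univ.filter fun τ : Fin G => 4 ^ (P + 2) ≤ (univ.filter fun s : Fin B =>
      φ (τ, s) ∈ Sg).card ∧ φ (τ, σ τ) ∈ Sg).card
  have hf0 : ∀ φ σ, 0 ≤ f φ σ := fun φ σ => by positivity
  let S : Φ → Finset (Inp G B P) := fun φ =>
    (ZZ (Fin G) B P).filter fun q => T (core_gr (Λ φ) (w φ) q)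
  have hS : ∀ φ, ((S φ).card : ℝ) * (B : ℝ) ^ G ≤
      (2 : ℝ) ^ (2 * b) * ((ZZ (Fin G) B P).card * ∑ σ, f φ.1 σ) := by
    intro φ
    have e1 := core_one (Λ φ) (w φ) X (hcl φ) T hT hTC (A φ)
      (fun τ hτ => by simp only [A, if_neg hτ]) (fun τ s hs t => by
        by_cases hτ : τ ∈ Λ φ
        · simp only [A, if_pos hτ, A', mem_filter] at hs
          have h5 := (mem_filter.1 hs.2).2 t
          exact ⟨((φ.1 (τ, s)).1 t).1, h5, Or.inl rfl⟩
        · simp only [A, if_neg hτ] at hs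
          exact absurd hs (notMem_empty _))
    have e2 : ∀ q ∈ ZZ (Fin G) B P, (1 / 2 : ℝ) ^ (univ.filter fun τ =>
        4 ^ (P + 2) ≤ (A φ τ).card ∧ ∃ s ∈ A φ τ, ∀ k, q.1 k (τ, s) = true).card ≤
        (2 : ℝ) ^ (2 * b) * ∑ σ ∈ univ.filter (fun σ : Fin G → Fin B =>
          ∀ τ k, q.1 k (τ, σ τ) = true), f φ.1 σ := by
      intro q hq
      have hprom := ((mem_ZZ q).1 hq).1
      choose σ hσ _ using hprom
      have e3 : f φ.1 σ ≤ ∑ σ ∈ univ.filter (fun σ : Fin G → Fin B =>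
          ∀ τ k, q.1 k (τ, σ τ) = true), f φ.1 σ :=
        single_le_sum (f := f φ.1) (fun σ _ => hf0 φ.1 σ) (mem_filter.2 ⟨mem_univ _, hσ⟩)
      refine le_trans ?_ (mul_le_mul_of_nonneg_left e3 (by positivity))
      -- the removed groups
      have e4 : (univ.filter fun τ : Fin G => 4 ^ (P + 2) ≤ (univ.filter fun s : Fin B =>
          φ.1 (τ, s) ∈ Sg).card ∧ φ.1 (τ, σ τ) ∈ Sg) ⊆
          (univ.filter fun τ => 4 ^ (P + 2) ≤ (A φ τ).card ∧
            ∃ s ∈ A φ τ, ∀ k, q.1 k (τ, s) = true) ∪ (R φ.1).image Prod.fst := by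
        intro τ hτ
        have hτ := (mem_filter.1 hτ).2
        by_cases hΛ : τ ∈ Λ φ
        · refine mem_union_left _ (mem_filter.2 ⟨mem_univ _, ?_⟩)
          simp only [A, if_pos hΛ]
          exact ⟨hτ.1, σ τ, mem_filter.2 ⟨mem_univ _, hτ.2⟩, hσ τ⟩
        · have h5 : ¬ ∀ s, (τ, s) ∉ R φ.1 := fun hc => hΛ (mem_filter.2 ⟨mem_univ _, hc⟩)
          push Not at h5
          obtain ⟨s, hs⟩ := h5
          exact mem_union_right _ (mem_image.2 ⟨(τ, s), hs, rfl⟩)
      have e5 := (card_le_card e4).trans (card_union_le _ _)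
      have e6 : ((R φ.1).image Prod.fst).card ≤ (R φ.1).card := card_image_le
      have e7 := φ.2
      set k1 := (univ.filter fun τ : Fin G => 4 ^ (P + 2) ≤ (univ.filter fun s : Fin B =>
          φ.1 (τ, s) ∈ Sg).card ∧ φ.1 (τ, σ τ) ∈ Sg).card with hk1
      set k2 := (univ.filter fun τ => 4 ^ (P + 2) ≤ (A φ τ).card ∧
            ∃ s ∈ A φ τ, ∀ k, q.1 k (τ, s) = true).card with hk2
      have e8 : (k1 : ℝ) ≤ k2 + 2 * b := by
        have e9 : k1 ≤ k2 + (R φ.1).card := e5.trans (Nat.add_le_add_left e6 _)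
        have e10 : (k1 : ℝ) ≤ k2 + ((R φ.1).card : ℝ) := by exact_mod_cast e9
        linarith
      have e11 : ∀ k : ℕ, (1 / 2 : ℝ) ^ k = (2 : ℝ) ^ (-(k : ℝ)) := by
        intro k
        rw [Real.rpow_neg (by norm_num), Real.rpow_natCast, one_div, inv_pow]
      show (1 / 2 : ℝ) ^ k2 ≤ (2 : ℝ) ^ (2 * b) * (1 / 2 : ℝ) ^ k1
      rw [e11, e11, ← Real.rpow_add (by norm_num)]
      exact Real.rpow_le_rpow_of_exponent_le (by norm_num) (by linarith)
    have e12 : (∑ q ∈ ZZ (Fin G) B P, ∑ σ ∈ univ.filter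
        (fun σ : Fin G → Fin B => ∀ τ k, q.1 k (τ, σ τ) = true), f φ.1 σ) * (B : ℝ) ^ G =
        (ZZ (Fin G) B P).card * ∑ σ, f φ.1 σ := by
      have h := sum_common (ι := Fin G) B P (f φ.1)
      rw [Fintype.card_fin] at h
      refine Eq.trans ?_ (h.trans ?_)
      · refine congrArg (fun y : ℝ => y * (B : ℝ) ^ G) ?_
        refine Finset.sum_congr rfl fun q _ => Finset.sum_congr ?_ fun _ _ => rfl
        ext σ
        simp only [mem_filter, mem_univ, true_and]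
      · refine congrArg (fun y : ℝ => ((ZZ (Fin G) B P).card : ℝ) * y) ?_
        exact Finset.sum_congr (by ext σ; simp only [mem_univ]) fun _ _ => rfl
    calc ((S φ).card : ℝ) * (B : ℝ) ^ G ≤ (∑ q ∈ ZZ (Fin G) B P, (2 : ℝ) ^ (2 * b) *
          ∑ σ ∈ univ.filter (fun σ : Fin G → Fin B => ∀ τ k, q.1 k (τ, σ τ) = true), f φ.1 σ) *
            (B : ℝ) ^ G := by
          refine mul_le_mul_of_nonneg_right ?_ (by positivity)
          exact e1.trans (sum_le_sum e2)
      _ = (2 : ℝ) ^ (2 * b) * ((∑ q ∈ ZZ (Fin G) B P, ∑ σ ∈ univ.filter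
          (fun σ : Fin G → Fin B => ∀ τ k, q.1 k (τ, σ τ) = true), f φ.1 σ) * (B : ℝ) ^ G) := by
          rw [← mul_sum]
          ring
      _ = _ := by rw [e12]
  have hall : ∑ φ : Φ, ∑ σ, f φ.1 σ ≤ U * (B : ℝ) ^ G * (2 : ℝ) ^ (-(ρ * G / 4)) := by
    have e1 : ∑ φ : Fin G × Fin B → Cont Z z N, ∑ σ, f φ σ ≤
        U * (B : ℝ) ^ G * (2 : ℝ) ^ (-(ρ * G / 4)) := by
      have h := good_sum (Ω := Cont Z z N) G B (4 ^ (P + 2)) Sg ρ hB
        hρ0 (core_dens Z X ρ hX) (by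
          push_cast
          exact hBd)
      refine le_trans (le_of_eq ?_) (h.trans (le_of_eq ?_))
      · refine Finset.sum_congr (by ext φ; simp only [mem_univ]) fun φ _ =>
          Finset.sum_congr (by ext σ; simp only [mem_univ]) fun σ _ => ?_
        refine congrArg (fun m : ℕ => (1 / 2 : ℝ) ^ m) (congrArg Finset.card ?_)
        ext τ
        simp only [mem_filter, mem_univ, true_and]
        refine and_congr (iff_of_eq (congrArg (fun m : ℕ => 4 ^ (P + 2) ≤ m)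
          (congrArg Finset.card ?_))) Iff.rfl
        ext s
        simp only [mem_filter, mem_univ, true_and]
      · rfl
    refine le_trans ?_ e1
    have e2 : ∑ φ : Φ, ∑ σ, f φ.1 σ = ∑ φ ∈ univ.filter (fun φ => ((R φ).card : ℝ) ≤ 2 * b),
        ∑ σ, f φ σ := by
      rw [← Finset.sum_subtype_eq_sum_filter, Finset.subtype_univ]
    rw [e2]
    exact sum_le_sum_of_subset_of_nonneg (subset_univ _) fun φ _ _ =>
      sum_nonneg fun σ _ => hf0 φ σ
  have hsum : (univ.filter fun i : Fin (Fintype.card (Φ × ↥(ZZ (Fin G) B P))) =>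
      T (core_gr (Λ (E i).1) (w (E i).1) (E i).2.1)).card = ∑ φ : Φ, (S φ).card := by
    rw [Finset.card_filter]
    rw [Equiv.sum_comp E (fun b : Φ × ↥(ZZ (Fin G) B P) =>
      if T (core_gr (Λ b.1) (w b.1) b.2.1) then (1 : ℕ) else 0), Fintype.sum_prod_type]
    refine Finset.sum_congr rfl fun φ _ => ?_
    rw [Finset.card_filter]
    exact Finset.sum_coe_sort (ZZ (Fin G) B P)
      (fun q => if T (core_gr (Λ φ) (w φ) q) then (1 : ℕ) else 0)
  have hBG : (0 : ℝ) < (B : ℝ) ^ G := pow_pos (by exact_mod_cast hB) _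
  have hfin : (∑ φ : Φ, ((S φ).card : ℝ)) * (B : ℝ) ^ G ≤
      (Fintype.card Φ * (ZZ (Fin G) B P).card *
        (2 * (2 : ℝ) ^ (2 * b) * (2 : ℝ) ^ (-(ρ * G / 4)))) * (B : ℝ) ^ G := by
    calc (∑ φ : Φ, ((S φ).card : ℝ)) * (B : ℝ) ^ G = ∑ φ : Φ, ((S φ).card : ℝ) * (B : ℝ) ^ G := by
          rw [sum_mul]
      _ ≤ ∑ φ : Φ, (2 : ℝ) ^ (2 * b) * ((ZZ (Fin G) B P).card * ∑ σ, f φ.1 σ) :=
          sum_le_sum fun φ _ => hS φ
      _ = ((2 : ℝ) ^ (2 * b) * (ZZ (Fin G) B P).card) * ∑ φ : Φ, ∑ σ, f φ.1 σ := by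
          rw [mul_sum]
          exact sum_congr rfl fun φ _ => by ring
      _ ≤ ((2 : ℝ) ^ (2 * b) * (ZZ (Fin G) B P).card) *
          (U * (B : ℝ) ^ G * (2 : ℝ) ^ (-(ρ * G / 4))) :=
          mul_le_mul_of_nonneg_left hall (by positivity)
      _ ≤ ((2 : ℝ) ^ (2 * b) * (ZZ (Fin G) B P).card) *
          ((2 * (Fintype.card Φ : ℝ)) * (B : ℝ) ^ G * (2 : ℝ) ^ (-(ρ * G / 4))) := by
          gcongr
      _ = _ := by ring
  have hfin2 := le_of_mul_le_mul_right hfin hBG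
  rw [hsum, hM]
  push_cast
  exact hfin2

end Pool.Agent.RW
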