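import Mathlib
import Pool.Agent.Lib.MP_0a1b52_lc_FP.Defs

/-!
# Local proofs and cut refutation trees: definitions
-/

set_option autoImplicit false

namespace Pool.Agent.RW

open Finset Pool.Agent.FP

/-- A local proof with `r` lines that the graph `x` has no clique with more than `√n` vertices.
Let `G 0, ..., G (s - 1)` be functions of a graph with `n` vertices (for instance the gates of a
circuit) and let `X 0, ..., X (K - 1)` be sets of variables.  The line `i` says that the function
`G (g i)` has the value `b i`, and the last statement says that there is no such clique; for each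
line there is a `k` such that the line holds for all graphs `y` which agree with `x` outside `X k`
and for which the lines before hold, and there is a `k` such that the last statement holds for all
graphs `y` which agree with `x` outside `X k` and for which all lines hold. -/
def LocalProof {n s K : ℕ} (G : Fin s → (EdgeVar n → Bool) → Bool)
    (X : Fin K → Finset (EdgeVar n)) (x : EdgeVar n → Bool) (r : ℕ) : Prop :=
  ∃ (g : Fin r → Fin s) (b : Fin r → Bool),
    (∀ i, ∃ k, ∀ y : EdgeVar n → Bool, (∀ v, v ∉ X k → y v = x v) →
      (∀ j, j < i → G (g j) y = b j) → G (g i) y = b i) ∧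
    ∃ k, ∀ y : EdgeVar n → Bool, (∀ v, v ∉ X k → y v = x v) →
      (∀ j, G (g j) y = b j) → ¬ Clq y

/-- The circuit `D` has a refutation tree for `x` whose list of variables is the concatenation of
`r` (possibly empty) lists such that any two of these lists (also one list taken twice) avoid a
common set `X k`: for some `k` no variable of the two lists is in `X k`. -/
def CutTree {n s K : ℕ} (D : Circuit (EdgeVar n) s) (X : Fin K → Finset (EdgeVar n))
    (x : EdgeVar n → Bool) (r : ℕ) : Prop :=
  ∃ P : List (List (EdgeVar n)), P.length = r ∧ D.Refutes x D.out P.flatten ∧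
    ∀ l ∈ P, ∀ l' ∈ P, ∃ k, (∀ v ∈ l, v ∉ X k) ∧ ∀ v ∈ l', v ∉ X k

open Classical in
/-- `Few M p`: at most `N * 2 ^ (-M)` of the `N` numbers `i` have the property `p`. -/
def Few {N : ℕ} (M : ℝ) (p : Fin N → Prop) : Prop :=
  ((univ.filter p).card : ℝ) ≤ N * (2 : ℝ) ^ (-M)

end Pool.Agent.RW
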