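import Mathlib
import Pool.Agent.Lib.MP_0a1b52_lc_RK.Local
import Pool.Agent.Lib.MP_0a1b52_lc_RK.Sem
import Pool.Agent.Lib.MP_0a1b52_lc_RK.Lists
import Pool.Agent.Lib.MP_0a1b52_lc_RW.Core
import Pool.Agent.Lib.MP_0a1b52_lc_RW.Arith

/-!
# Local proofs, fixed sets and families of subsets: the theorem
-/

set_option autoImplicit false

namespace Pool.Agent.RW

open Finset Pool.Agent.FP Pool.Agent.RP Pool.Agent.RK

open Classical in
/-- few variables have a large vertex -/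
private theorem main_diff {n N : ℕ} (hN : N + (Nat.sqrt n + 2) = n) (X : Finset (EdgeVar n)) :
    (X.card : ℝ) - ((Nat.sqrt n + 2 : ℕ) : ℝ) * n ≤
      ((X.filter fun e => (e.1.2 : ℕ) < N).card : ℝ) := by
  have h3 : (X.filter fun e => ¬ (e.1.2 : ℕ) < N).card ≤ (Nat.sqrt n + 2) * n := by
    have h4 : (X.filter fun e => ¬ (e.1.2 : ℕ) < N).card ≤ ((univ : Finset (Fin n)) ×ˢ
        (univ.filter fun v : Fin n => ¬ (v : ℕ) < N)).card := by
      refine Finset.card_le_card_of_injOn (fun e => e.1) ?_ (fun e _ e' _ h => Subtype.ext h)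
      intro e he
      rw [Finset.mem_coe, Finset.mem_filter] at he
      simp only [Finset.coe_product, Set.mem_prod, Finset.coe_univ, Set.mem_univ, true_and,
        Finset.mem_coe, Finset.mem_filter, Finset.mem_univ]
      exact he.2
    have h5 : (univ.filter fun v : Fin n => (v : ℕ) < N).card +
        (univ.filter fun v : Fin n => ¬ (v : ℕ) < N).card = n := by
      rw [Finset.card_filter_add_card_filter_not, Finset.card_univ, Fintype.card_fin]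
    have h6 : (univ.filter fun v : Fin n => (v : ℕ) < N).card = N := by
      rw [Fin.card_filter_val_lt, min_eq_right (by omega)]
    have h7 : (univ.filter fun v : Fin n => ¬ (v : ℕ) < N).card = Nat.sqrt n + 2 := by omega
    rw [Finset.card_product, Finset.card_univ, Fintype.card_fin, h7, mul_comm] at h4
    exact h4
  have h8 : (X.filter fun e => (e.1.2 : ℕ) < N).card +
      (X.filter fun e => ¬ (e.1.2 : ℕ) < N).card = X.card :=
    Finset.card_filter_add_card_filter_not _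
  have h9 : (((X.filter fun e => ¬ (e.1.2 : ℕ) < N).card : ℕ) : ℝ) ≤
      ((Nat.sqrt n + 2 : ℕ) : ℝ) * n := by exact_mod_cast h3
  have h10 : (((X.filter fun e => (e.1.2 : ℕ) < N).card : ℕ) : ℝ) +
      (((X.filter fun e => ¬ (e.1.2 : ℕ) < N).card : ℕ) : ℝ) = X.card := by exact_mod_cast h8
  linarith

private theorem main_root (δ ε : ℝ) (hε : 0 < ε) (hδε : 2 * δ + ε ≤ 1) : ∃ n₀ : ℕ, ∀ n ≥ n₀,
    16 * (((Nat.sqrt n + 2 : ℕ) : ℝ) * n) ≤ (n : ℝ) ^ (2 - δ - ε / 16) := by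
  have hlim : Filter.Tendsto (fun n : ℕ => (n : ℝ) ^ (ε / 4)) Filter.atTop Filter.atTop :=
    (tendsto_rpow_atTop (by positivity)).comp tendsto_natCast_atTop_atTop
  obtain ⟨n₀, h₀⟩ := Filter.eventually_atTop.1 (hlim.eventually_ge_atTop 48)
  refine ⟨max n₀ 4, fun n hn => ?_⟩
  have hn4 : 4 ≤ n := le_trans (le_max_right _ _) hn
  have hnR : (4 : ℝ) ≤ n := by exact_mod_cast hn4
  have hn0 : (0 : ℝ) < n := by linarith
  have h1 : (48 : ℝ) ≤ (n : ℝ) ^ (ε / 4) := h₀ n (le_trans (le_max_left _ _) hn)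
  have h2 : ((Nat.sqrt n + 2 : ℕ) : ℝ) ≤ 3 * (n : ℝ) ^ (1 / 2 : ℝ) := by
    have h3 : (Nat.sqrt n : ℝ) ≤ (n : ℝ) ^ (1 / 2 : ℝ) := by
      rw [← Real.sqrt_eq_rpow]
      exact Real.nat_sqrt_le_real_sqrt
    have h4 : (1 : ℝ) ≤ (n : ℝ) ^ (1 / 2 : ℝ) := Real.one_le_rpow (by linarith) (by norm_num)
    push_cast
    linarith
  calc 16 * (((Nat.sqrt n + 2 : ℕ) : ℝ) * n) ≤ 16 * (3 * (n : ℝ) ^ (1 / 2 : ℝ) * n) := by gcongr
    _ = 48 * (n : ℝ) ^ (3 / 2 : ℝ) := by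
        have : (n : ℝ) ^ (3 / 2 : ℝ) = (n : ℝ) ^ (1 / 2 : ℝ) * n := by
          rw [← Real.rpow_add_one hn0.ne']
          norm_num
        rw [this]
        ring
    _ ≤ (n : ℝ) ^ (ε / 4) * (n : ℝ) ^ (3 / 2 : ℝ) := by gcongr
    _ = (n : ℝ) ^ (ε / 4 + 3 / 2) := (Real.rpow_add hn0 _ _).symm
    _ ≤ (n : ℝ) ^ (2 - δ - ε / 16) :=
        Real.rpow_le_rpow_of_exponent_le (by linarith) (by linarith)

open Classical in
theorem embed (δ ε : ℝ) (hδ : 0 ≤ δ) (hε : 0 < ε) (hδε : 2 * δ + ε ≤ 1) : ∃ n₀ : ℕ, ∀ n ≥ n₀,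
    ∀ K : ℕ, 2 ≤ K → (K : ℝ) ≤ ε / 16 * Real.logb 2 n →
    ∀ Z : Fin K → Finset (EdgeVar n),
    (∀ k, (n : ℝ) ^ (-δ) * (n.choose 2 : ℝ) ≤ ((Z k).card : ℝ)) →
    ∃ (N : ℕ) (Q : Fin N → EdgeVar n → Bool), 0 < N ∧ (∀ i, ¬ Clq (Q i)) ∧
      ∀ X : Fin K → Finset (EdgeVar n),
        (n : ℝ) ^ (-(ε / 16)) * ∏ k, ((Z k).card : ℝ) ≤ ∏ k, ((X k ∩ Z k).card : ℝ) →
        ∀ T : (EdgeVar n → Bool) → Prop, StarK X T → (∀ x, T x → ¬ Clq x) →
          ((univ.filter fun i => T (Q i)).card : ℝ) ≤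
            N * (2 : ℝ) ^ (-((n : ℝ) ^ (2 - 2 * δ - 7 / 8 * ε))) := by
  obtain ⟨a, h, z, n₁, ha, hh, hz, hA⟩ := arith δ ε hδ hε hδε
  obtain ⟨n₂, hroot⟩ := main_root δ ε hε hδε
  refine ⟨max n₁ (max n₂ 4), fun n hn K hK2 hK Z hZ' => ?_⟩
  have hn1 : n₁ ≤ n := le_trans (le_max_left _ _) hn
  have hn2 : n₂ ≤ n := le_trans (le_trans (le_max_left _ _) (le_max_right _ _)) hn
  have hn4 : 4 ≤ n := le_trans (le_trans (le_max_right _ _) (le_max_right _ _)) hn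
  have hnR4 : (4 : ℝ) ≤ n := by exact_mod_cast hn4
  have hnR : (1 : ℝ) ≤ n := by linarith
  have hn0 : (0 : ℝ) < n := by linarith
  have e3 := hroot n hn2
  have hZ : ∀ k, 3 / 8 * (n : ℝ) ^ (2 - δ) ≤ ((Z k).card : ℝ) := by
    intro k
    refine le_trans ?_ (hZ' k)
    have h5 : (n : ℝ) ^ (2 - δ) = (n : ℝ) ^ (-δ) * (n * n) := by
      rw [show (2 : ℝ) - δ = -δ + (1 + 1) by ring, Real.rpow_add hn0, Real.rpow_add hn0,
        Real.rpow_one]
    have h6 : (n.choose 2 : ℝ) = n * (n - 1) / 2 := Nat.cast_choose_two ℝ n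
    have h7 : (0 : ℝ) ≤ (n : ℝ) ^ (-δ) := by positivity
    rw [h5, h6]
    have h8 : 3 / 8 * ((n : ℝ) * n) ≤ n * (n - 1) / 2 := by nlinarith
    calc 3 / 8 * ((n : ℝ) ^ (-δ) * (n * n)) = (n : ℝ) ^ (-δ) * (3 / 8 * (n * n)) := by ring
      _ ≤ _ := mul_le_mul_of_nonneg_left h8 h7
  obtain ⟨e1, e2, -, e4, G, B, b, hB, hb0, hBd, hb, hGb⟩ := hA n hn1 K (by omega) hK
  obtain ⟨P, rfl⟩ : ∃ P, K = P + 1 := ⟨K - 1, by omega⟩
  set N₀ := n - (Nat.sqrt n + 2) with hN₀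
  have hN : N₀ + (Nat.sqrt n + 2) = n := by omega
  set v : ℝ := (n : ℝ) ^ (-(ε / 16)) with hv
  have hv0 : 0 < v := Real.rpow_pos_of_pos hn0 _
  have hv1 : v ≤ 1 := Real.rpow_le_one_of_one_le_of_nonpos hnR (by linarith)
  have hρ : (1 / 2 * (n : ℝ) ^ (-(ε / (16 * ((P + 1 : ℕ) : ℝ))))) ^ (P + 1) =
      (1 / 2) ^ (P + 1) * v := by
    have h5 : ((P + 1 : ℕ) : ℝ) ≠ 0 := by positivity
    rw [mul_pow, ← Real.rpow_mul_natCast hn0.le, hv]
    congr 2
    field_simp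
  rw [hρ] at hBd hGb
  -- sets with relative density `v` are large
  have hlarge : 16 * (((Nat.sqrt n + 2 : ℕ) : ℝ) * n) ≤ v * (n : ℝ) ^ (2 - δ) := by
    refine e3.trans (le_of_eq ?_)
    rw [hv, ← Real.rpow_add hn0]
    congr 1
    ring
  have hlarge1 : 16 * (((Nat.sqrt n + 2 : ℕ) : ℝ) * n) ≤ (n : ℝ) ^ (2 - δ) :=
    hlarge.trans (mul_le_of_le_one_left (by positivity) hv1)
  have hpos : (0 : ℝ) < (n : ℝ) ^ (2 - δ) := Real.rpow_pos_of_pos hn0 _
  have hZ0 : ∀ k, (0 : ℝ) < ((Z k).card : ℝ) := fun k =>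
    lt_of_lt_of_le (by positivity) (hZ k)
  obtain ⟨N, Q, hN1, hQ, hE⟩ := core (P := P) (G := G) (B := B) (by omega) hN.le e2 ha hh (by omega)
    e1 hB Z (4 * (n : ℝ) ^ (δ - 1)) (by positivity) (fun t => by
      have h5 := main_diff hN (Z t)
      have h6 : (n : ℝ) = 4 * (n : ℝ) ^ (δ - 1) * ((n : ℝ) ^ (2 - δ) / 4) := by
        have h7 : (n : ℝ) ^ (δ - 1) * (n : ℝ) ^ (2 - δ) = n := by
          rw [← Real.rpow_add hn0]
          have : δ - 1 + (2 - δ) = 1 := by ring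
          rw [this, Real.rpow_one]
        linear_combination (-1 : ℝ) * h7
      have h8 : (n : ℝ) ^ (2 - δ) / 4 ≤
          (((Z t).filter fun e => (e.1.2 : ℕ) < N₀).card : ℝ) := by
        have h10 := hZ t
        linarith
      calc (n : ℝ) = 4 * (n : ℝ) ^ (δ - 1) * ((n : ℝ) ^ (2 - δ) / 4) := h6
        _ ≤ _ := mul_le_mul_of_nonneg_left h8 (by positivity)) e4 b hb0 hb
  refine ⟨N, Q, hN1, hQ, fun X hX T hT hTC => ?_⟩
  refine (hE X ((1 / 2) ^ (P + 1) * v) (by positivity) ?_ hBd T hT hTC).trans ?_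
  · have hone : ∀ t, v * ((Z t).card : ℝ) ≤ ((X t ∩ Z t).card : ℝ) := by
      intro t
      have h5 : ∏ k ∈ univ.erase t, ((X k ∩ Z k).card : ℝ) ≤
          ∏ k ∈ univ.erase t, ((Z k).card : ℝ) :=
        prod_le_prod (fun k _ => Nat.cast_nonneg _) fun k _ => by
          exact_mod_cast card_le_card inter_subset_right
      rw [← mul_prod_erase univ (fun k => ((Z k).card : ℝ)) (mem_univ t),
        ← mul_prod_erase univ (fun k => ((X k ∩ Z k).card : ℝ)) (mem_univ t), ← mul_assoc] at hX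
      have h6 : (0 : ℝ) < ∏ k ∈ univ.erase t, ((Z k).card : ℝ) := prod_pos fun k _ => hZ0 k
      have h7 := hX.trans (mul_le_mul_of_nonneg_left h5 (Nat.cast_nonneg (X t ∩ Z t).card))
      exact le_of_mul_le_mul_right h7 h6
    have h8 : ∀ t, ((X t ∩ Z t).card : ℝ) / 2 ≤
        (((X t ∩ Z t).filter fun e => (e.1.2 : ℕ) < N₀).card : ℝ) := fun t => by
      have h9 := main_diff hN (X t ∩ Z t)
      have h10 := (mul_le_mul_of_nonneg_left (hZ t) hv0.le).trans (hone t)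
      have h11 : v * (3 / 8 * (n : ℝ) ^ (2 - δ)) = 3 / 8 * (v * (n : ℝ) ^ (2 - δ)) := by ring
      rw [h11] at h10
      have h12 : (0 : ℝ) ≤ ((Nat.sqrt n + 2 : ℕ) : ℝ) * n := by positivity
      linarith
    have h9 : ∏ t, (((Z t).filter fun e => (e.1.2 : ℕ) < N₀).card : ℝ) ≤
        ∏ t, ((Z t).card : ℝ) :=
      prod_le_prod (fun k _ => Nat.cast_nonneg _) fun k _ => by
        exact_mod_cast card_filter_le _ _
    have h10 : (1 / 2 : ℝ) ^ (P + 1) * ∏ t, ((X t ∩ Z t).card : ℝ) =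
        ∏ t : Fin (P + 1), (((X t ∩ Z t).card : ℝ) / 2) := by
      rw [prod_div_distrib, prod_const, card_univ, Fintype.card_fin, one_div, inv_pow]
      ring
    calc (1 / 2) ^ (P + 1) * v * ∏ t, (((Z t).filter fun e => (e.1.2 : ℕ) < N₀).card : ℝ) ≤
        (1 / 2) ^ (P + 1) * v * ∏ t, ((Z t).card : ℝ) :=
          mul_le_mul_of_nonneg_left h9 (by positivity)
      _ = (1 / 2) ^ (P + 1) * (v * ∏ t, ((Z t).card : ℝ)) := by ring
      _ ≤ (1 / 2) ^ (P + 1) * ∏ t, ((X t ∩ Z t).card : ℝ) :=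
          mul_le_mul_of_nonneg_left hX (by positivity)
      _ = ∏ t : Fin (P + 1), (((X t ∩ Z t).card : ℝ) / 2) := h10
      _ ≤ _ := prod_le_prod (fun k _ => by positivity) fun k _ => h8 k
  · refine mul_le_mul_of_nonneg_left ?_ (Nat.cast_nonneg _)
    have h5 : (2 : ℝ) * (2 : ℝ) ^ (2 * b) * (2 : ℝ) ^ (-((1 / 2) ^ (P + 1) * v * G / 4)) =
        (2 : ℝ) ^ (1 + 2 * b + -((1 / 2) ^ (P + 1) * v * G / 4)) := by
      rw [Real.rpow_add (by norm_num), Real.rpow_add (by norm_num), Real.rpow_one]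
    rw [h5]
    exact Real.rpow_le_rpow_of_exponent_le (by norm_num) (by linarith)

private theorem main_large (ε : ℝ) (hε : 0 < ε) : ∃ n₀ : ℕ, ∀ n ≥ n₀, ∀ K : ℕ, 1 ≤ K →
    (K : ℝ) ≤ ε / 16 * Real.logb 2 n → (3 * K + 3 : ℝ) ≤ (n : ℝ) ^ (ε / 16) := by
  have hlim : Filter.Tendsto (fun n : ℕ => (n : ℝ) ^ (ε / 16)) Filter.atTop Filter.atTop :=
    (tendsto_rpow_atTop (by positivity)).comp tendsto_natCast_atTop_atTop
  obtain ⟨n₀, h₀⟩ := Filter.eventually_atTop.1 (hlim.eventually_ge_atTop 32)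
  refine ⟨max n₀ 2, fun n hn K hK1 hK => ?_⟩
  have hn2 : (2 : ℝ) ≤ n := by exact_mod_cast le_trans (le_max_right _ _) hn
  have hn0 : (0 : ℝ) < n := by linarith
  have h1 : (32 : ℝ) ≤ (n : ℝ) ^ (ε / 16) := h₀ n (le_trans (le_max_left _ _) hn)
  have h3 : (2 : ℝ) ^ (K : ℝ) ≤ (n : ℝ) ^ (ε / 16) := by
    calc (2 : ℝ) ^ (K : ℝ) ≤ (2 : ℝ) ^ (Real.logb 2 n * (ε / 16)) :=
          Real.rpow_le_rpow_of_exponent_le (by norm_num) (by linarith)
      _ = (n : ℝ) ^ (ε / 16) := by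
          rw [Real.rpow_mul (by norm_num), Real.rpow_logb (by norm_num) (by norm_num) hn0]
  rw [Real.rpow_natCast] at h3
  rcases Nat.lt_or_ge K 5 with h4 | h4
  · have h5 : (K : ℝ) ≤ 4 := by
      have : K ≤ 4 := by omega
      exact_mod_cast this
    linarith
  · have h5 : ∀ m : ℕ, 5 ≤ m → 3 * m + 3 ≤ 2 ^ m := by
      intro m hm
      induction m, hm using Nat.le_induction with
      | base => norm_num
      | succ m hm ih =>
        rw [pow_succ]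
        omega
    have h6 : (3 * K + 3 : ℝ) ≤ (2 : ℝ) ^ K := by exact_mod_cast h5 K h4
    exact h6.trans h3

/-- refutations by lemmas are local proofs -/
private theorem main_sem {n s K r : ℕ} {D : Circuit (EdgeVar n) s}
    (hD : ∀ x, Clq x → D.Accepts x) (hK : 0 < K) {x : EdgeVar n → Bool}
    {X : Fin K → Finset (EdgeVar n)} (h : Sem (gateFun D) D.out x X r) :
    LocalProof (gateFun D) X x r := by
  obtain ⟨k, g, h1, i₀, h2⟩ := h
  refine ⟨g, fun _ => false, fun i => ⟨k i, fun y hy hj => h1 i y hy hj⟩, ⟨0, hK⟩,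
    fun y _ hy hc => ?_⟩
  have h3 := hy i₀
  rw [h2, gateFun_out (hD y hc)] at h3
  exact absurd h3 (by simp)

open Classical in
/-- the count -/
private theorem main_count {n M N s r : ℕ} (δ ε : ℝ) (hδ : 0 ≤ δ) (hε : 0 < ε)
    (hδε : 2 * δ + ε ≤ 1) (hn : 1 ≤ n) (h2 : (2 : ℝ) ≤ (n : ℝ) ^ (ε / 16))
    (hbig : (3 * ((M + 1 : ℕ) : ℝ) + 3 : ℝ) ≤ (n : ℝ) ^ (ε / 16))
    (Q : Fin N → EdgeVar n → Bool) (F : Finset (Fin (M + 1) → Finset (EdgeVar n)))
    (hF : Real.logb 2 F.card ≤ (n : ℝ) ^ (2 - 2 * δ - ε))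
    (hE : ∀ X ∈ F, ∀ T : (EdgeVar n → Bool) → Prop, StarK X T → (∀ x, T x → ¬ Clq x) →
      ((univ.filter fun i => T (Q i)).card : ℝ) ≤
        N * (2 : ℝ) ^ (-((n : ℝ) ^ (2 - 2 * δ - 7 / 8 * ε))))
    (hrs : r * Real.logb 2 (s + 1) ≤ 2 * (n : ℝ) ^ (2 - 2 * δ - ε))
    (G : Fin s → (EdgeVar n → Bool) → Bool) :
    ((univ.filter fun i => ∃ X ∈ F, LocalProof G X (Q i) r).card : ℝ) ≤
      N * (2 : ℝ) ^ (-((n : ℝ) ^ (2 - 2 * δ - ε))) := by
  have hnR : (1 : ℝ) ≤ n := by exact_mod_cast hn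
  have hn0 : (0 : ℝ) < n := by linarith
  rcases F.eq_empty_or_nonempty with hF0 | hF0
  · subst hF0
    simp only [notMem_empty, false_and, exists_false, filter_false, card_empty, Nat.cast_zero]
    positivity
  set a : ℝ := N * (2 : ℝ) ^ (-((n : ℝ) ^ (2 - (2 * δ + 7 / 8 * ε)))) with ha
  set m : ℕ := ((M + 1) * (s * 2)) ^ r * (M + 1) with hm
  have hX : ∀ X ∈ F, ((univ.filter fun i => LocalProof G X (Q i) r).card : ℝ) ≤ m * a := by
    intro X hX
    obtain ⟨m', T, hm', hT1, hT2, hT3⟩ := local_cover G X r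
    have hθ : ∀ θ, ((univ.filter fun i => T θ (Q i)).card : ℝ) ≤ a := fun θ => by
      have h3 := hE X hX (T θ) (hT1 θ) fun x hx => hT2 θ x hx
      have h4 : 2 - (2 * δ + 7 / 8 * ε) = 2 - 2 * δ - 7 / 8 * ε := by ring
      rw [ha, h4]
      exact h3
    have hsub : (univ.filter fun i => LocalProof G X (Q i) r) ⊆
        univ.biUnion fun θ : Fin m' => univ.filter fun i => T θ (Q i) := by
      intro i hi
      obtain ⟨θ, hθ⟩ := hT3 (Q i) (mem_filter.1 hi).2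
      exact mem_biUnion.2 ⟨θ, mem_univ _, mem_filter.2 ⟨mem_univ _, hθ⟩⟩
    have h9 := (card_le_card hsub).trans (card_biUnion_le (s := univ)
      (t := fun θ : Fin m' => univ.filter fun i => T θ (Q i)))
    have h10 : ((univ.filter fun i => LocalProof G X (Q i) r).card : ℝ) ≤
        ∑ θ : Fin m', ((univ.filter fun i => T θ (Q i)).card : ℝ) := by exact_mod_cast h9
    refine h10.trans ((sum_le_sum fun θ _ => hθ θ).trans (le_of_eq ?_))
    rw [sum_const, card_univ, Fintype.card_fin, nsmul_eq_mul, hm']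
  have hsub : (univ.filter fun i => ∃ X ∈ F, LocalProof G X (Q i) r) ⊆ F.biUnion fun X =>
      univ.filter fun i => LocalProof G X (Q i) r := by
    intro i hi
    obtain ⟨X, hX1, hX2⟩ := (mem_filter.1 hi).2
    exact mem_biUnion.2 ⟨X, hX1, mem_filter.2 ⟨mem_univ _, hX2⟩⟩
  have h9 := (card_le_card hsub).trans (card_biUnion_le (s := F)
    (t := fun X => univ.filter fun i => LocalProof G X (Q i) r))
  have h10 : ((univ.filter fun i => ∃ X ∈ F, LocalProof G X (Q i) r).card : ℝ) ≤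
      ∑ X ∈ F, ((univ.filter fun i => LocalProof G X (Q i) r).card : ℝ) := by exact_mod_cast h9
  have h11 : ((univ.filter fun i => ∃ X ∈ F, LocalProof G X (Q i) r).card : ℝ) ≤
      (F.card : ℝ) * (m * a) := by
    refine h10.trans ((sum_le_sum hX).trans (le_of_eq ?_))
    rw [sum_const, nsmul_eq_mul]
  have hpow : 2 * (n : ℝ) ^ (2 - 2 * δ - ε) ≤ (n : ℝ) ^ (2 - (2 * δ + 15 / 16 * ε)) := by
    have h4 : (n : ℝ) ^ (2 - (2 * δ + 15 / 16 * ε)) =
        (n : ℝ) ^ (ε / 16) * (n : ℝ) ^ (2 - 2 * δ - ε) := by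
      rw [← Real.rpow_add hn0]
      congr 1
      ring
    rw [h4]
    exact mul_le_mul_of_nonneg_right h2 (by positivity)
  have hpos : (0 : ℝ) ≤ (n : ℝ) ^ (2 - 2 * δ - ε) := by positivity
  have h12 := local_arith (M := M) (s := s) (r := r) (n := n) (f := F.card)
    (ε := 2 * δ + 15 / 16 * ε) (ε' := 2 * δ + 7 / 8 * ε) hn (by linarith)
    (hF.trans (by linarith)) (Finset.card_pos.2 hF0) (hrs.trans hpow) (by
      have h13 : (n : ℝ) ^ (2 - (2 * δ + 7 / 8 * ε)) =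
          (n : ℝ) ^ (ε / 16) * (n : ℝ) ^ (2 - (2 * δ + 15 / 16 * ε)) := by
        rw [← Real.rpow_add hn0]
        congr 1
        ring
      rw [h13]
      refine mul_le_mul_of_nonneg_right ?_ (by positivity)
      have h14 := hbig
      push_cast at h14
      exact h14)
  have h15 : (F.card : ℝ) ≤ ((F.card ^ (M + 1) : ℕ) : ℝ) := by
    exact_mod_cast Nat.le_self_pow (Nat.succ_ne_zero M) F.card
  have ha0 : 0 ≤ a := by positivity
  calc _ ≤ (F.card : ℝ) * (m * a) := h11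
    _ ≤ ((F.card ^ (M + 1) : ℕ) : ℝ) * (m * a) := mul_le_mul_of_nonneg_right h15 (by positivity)
    _ = N * (((F.card ^ (M + 1) : ℕ) : ℝ) * ((m : ℕ) *
        (2 : ℝ) ^ (-((n : ℝ) ^ (2 - (2 * δ + 7 / 8 * ε)))))) := by
        rw [ha]
        ring
    _ ≤ N * (2 : ℝ) ^ (-((n : ℝ) ^ (2 - (2 * δ + 15 / 16 * ε)))) :=
        mul_le_mul_of_nonneg_left h12 (Nat.cast_nonneg _)
    _ ≤ N * (2 : ℝ) ^ (-((n : ℝ) ^ (2 - 2 * δ - ε))) := by
        refine mul_le_mul_of_nonneg_left ?_ (Nat.cast_nonneg _)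
        exact Real.rpow_le_rpow_of_exponent_le (by norm_num) (by linarith)

open Classical in
/-- **Local proofs.**  For `δ ≥ 0` and `ε > 0` with `2 δ + ε ≤ 1` there is `n₀` such that for all
`n ≥ n₀`, all `2 ≤ K ≤ (ε / 16) log₂ n` and all sets `Z 1, ..., Z K` of at least
`n ^ (- δ) n (n - 1) / 2` variables there are graphs `Q 1, ..., Q N` with `n` vertices and without a clique of more than `√n`
vertices such that the following holds for each family `F` of at most `2 ^ (n ^ (2 - 2 δ - ε))`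
`K`-tuples `X` of sets of variables such that the product of the numbers `|X k ∩ Z k| / |Z k|` is at
least `n ^ (- ε / 16)`, and for all `s`, `r` with `r log₂ (s + 1) ≤ n ^ (2 - 2 δ - ε)`.

(1) For any functions `G 1, ..., G s` of a graph at most `N 2 ^ (- n ^ (2 - 2 δ - ε))` of the graphs
`Q i` have a local proof with `r` lines for some `X` in `F`.

(2) Let `D` be a circuit with `s` gates which accepts all graphs with a clique of more than `√n`
vertices.  For at most `N 2 ^ (- n ^ (2 - 2 δ - ε))` of the graphs `Q i` there are `X` in `F` and a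
refutation tree in `D` whose list of variables is the concatenation of `r` lists such that for any
two of these lists (also for one list taken twice) some `X k` contains no variable of them. -/
theorem final (δ ε : ℝ) (hδ : 0 ≤ δ) (hε : 0 < ε) (hδε : 2 * δ + ε ≤ 1) : ∃ n₀ : ℕ, ∀ n ≥ n₀,
    ∀ K : ℕ, 2 ≤ K → (K : ℝ) ≤ ε / 16 * Real.logb 2 n →
    ∀ Z : Fin K → Finset (EdgeVar n),
    (∀ k, (n : ℝ) ^ (-δ) * (n.choose 2 : ℝ) ≤ ((Z k).card : ℝ)) →
    ∃ (N : ℕ) (Q : Fin N → EdgeVar n → Bool), 0 < N ∧ (∀ i, ¬ Clq (Q i)) ∧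
      ∀ F : Finset (Fin K → Finset (EdgeVar n)),
        (∀ X ∈ F,
          (n : ℝ) ^ (-(ε / 16)) * ∏ k, ((Z k).card : ℝ) ≤ ∏ k, ((X k ∩ Z k).card : ℝ)) →
        Real.logb 2 F.card ≤ (n : ℝ) ^ (2 - 2 * δ - ε) →
        ∀ s r : ℕ, r * Real.logb 2 (s + 1) ≤ (n : ℝ) ^ (2 - 2 * δ - ε) →
          (∀ G : Fin s → (EdgeVar n → Bool) → Bool,
            ((univ.filter fun i => ∃ X ∈ F, LocalProof G X (Q i) r).card : ℝ) ≤
              N * (2 : ℝ) ^ (-((n : ℝ) ^ (2 - 2 * δ - ε)))) ∧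
          ∀ D : Circuit (EdgeVar n) s, (∀ x, Clq x → D.Accepts x) →
            ((univ.filter fun i => ∃ X ∈ F, ∃ P : List (List (EdgeVar n)), P.length = r ∧
              D.Refutes (Q i) D.out P.flatten ∧
              ∀ l ∈ P, ∀ l' ∈ P, ∃ k, (∀ v ∈ l, v ∉ X k) ∧ ∀ v ∈ l', v ∉ X k).card : ℝ) ≤
              N * (2 : ℝ) ^ (-((n : ℝ) ^ (2 - 2 * δ - ε))) := by
  obtain ⟨n₁, hE⟩ := embed δ ε hδ hε hδε
  obtain ⟨n₃, h₃⟩ := main_large ε hε
  refine ⟨max n₁ (max n₃ 1), fun n hn K hK2 hK Z hZ => ?_⟩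
  have hn1 : n₁ ≤ n := le_trans (le_max_left _ _) hn
  have hn3 : n₃ ≤ n := le_trans (le_trans (le_max_left _ _) (le_max_right _ _)) hn
  have hn4 : 1 ≤ n := le_trans (le_trans (le_max_right _ _) (le_max_right _ _)) hn
  have hbig := h₃ n hn3 K (by omega) hK
  have hK1 : (1 : ℝ) ≤ K := by
    have : 1 ≤ K := by omega
    exact_mod_cast this
  have h2 : (2 : ℝ) ≤ (n : ℝ) ^ (ε / 16) := by linarith
  obtain ⟨N, Q, hN, hQ, hE⟩ := hE n hn1 K hK2 hK Z hZ
  obtain ⟨M, rfl⟩ : ∃ M, K = M + 1 := ⟨K - 1, by omega⟩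
  refine ⟨N, Q, hN, hQ, fun F hF1 hF2 s r hrs => ?_⟩
  have hpos : (0 : ℝ) ≤ (n : ℝ) ^ (2 - 2 * δ - ε) := by positivity
  have key : ∀ (r : ℕ) (G : Fin s → (EdgeVar n → Bool) → Bool),
      r * Real.logb 2 (s + 1) ≤ 2 * (n : ℝ) ^ (2 - 2 * δ - ε) →
      ((univ.filter fun i => ∃ X ∈ F, LocalProof G X (Q i) r).card : ℝ) ≤
        N * (2 : ℝ) ^ (-((n : ℝ) ^ (2 - 2 * δ - ε))) := fun r G hr =>
    main_count δ ε hδ hε hδε hn4 h2 hbig Q F hF2 (fun X hX T hT hTC => hE X (hF1 X hX) T hT hTC)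
      hr G
  refine ⟨fun G => key r G (by linarith), fun D hD => ?_⟩
  refine le_trans ?_ (key (2 * r) (gateFun D) (by push_cast; linarith))
  have hsub : (univ.filter fun i => ∃ X ∈ F, ∃ P : List (List (EdgeVar n)), P.length = r ∧
      D.Refutes (Q i) D.out P.flatten ∧
      ∀ l ∈ P, ∀ l' ∈ P, ∃ k, (∀ v ∈ l, v ∉ X k) ∧ ∀ v ∈ l', v ∉ X k) ⊆
      univ.filter fun i => ∃ X ∈ F, LocalProof (gateFun D) X (Q i) (2 * r) := by
    intro i hi
    obtain ⟨X, hX, P, hP1, hP2, hP3⟩ := (mem_filter.1 hi).2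
    refine mem_filter.2 ⟨mem_univ _, X, hX, ?_⟩
    rw [← hP1]
    exact main_sem hD (Nat.succ_pos M) (lists D (Q i) X P hP2 hP3).sem
  exact_mod_cast card_le_card hsub

end Pool.Agent.RW
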