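import Mathlib
import Pool.Agent.Lib.MP_0a1b52_lc_RW.Main
import Pool.Agent.Lib.MP_0a1b52_lc_RW.Defs

/-!
# Local proofs and cut refutation trees: the final theorem
-/

set_option autoImplicit false

namespace Pool.Agent.RW

open Finset Pool.Agent.FP

/-- **Local proofs and cut refutation trees.** -/
theorem final_few (δ ε : ℝ) (hδ : 0 ≤ δ) (hε : 0 < ε) (hδε : 2 * δ + ε ≤ 1) : ∃ n₀ : ℕ, ∀ n ≥ n₀,
    ∀ K : ℕ, 2 ≤ K → (K : ℝ) ≤ ε / 16 * Real.logb 2 n →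
    ∀ Z : Fin K → Finset (EdgeVar n),
    (∀ k, (n : ℝ) ^ (-δ) * (n.choose 2 : ℝ) ≤ ((Z k).card : ℝ)) →
    ∃ (N : ℕ) (Q : Fin N → EdgeVar n → Bool), 0 < N ∧ (∀ i, ¬ Clq (Q i)) ∧
      ∀ F : Finset (Fin K → Finset (EdgeVar n)),
        (∀ X ∈ F,
          (n : ℝ) ^ (-(ε / 16)) * ∏ k, ((Z k).card : ℝ) ≤ ∏ k, ((X k ∩ Z k).card : ℝ)) →
        Real.logb 2 F.card ≤ (n : ℝ) ^ (2 - 2 * δ - ε) →
        ∀ s r : ℕ, r * Real.logb 2 (s + 1) ≤ (n : ℝ) ^ (2 - 2 * δ - ε) →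
          (∀ G : Fin s → (EdgeVar n → Bool) → Bool,
            Few ((n : ℝ) ^ (2 - 2 * δ - ε)) fun i => ∃ X ∈ F, LocalProof G X (Q i) r) ∧
          ∀ D : Circuit (EdgeVar n) s, (∀ x, Clq x → D.Accepts x) →
            Few ((n : ℝ) ^ (2 - 2 * δ - ε)) fun i => ∃ X ∈ F, CutTree D X (Q i) r := by
  obtain ⟨n₀, h⟩ := final δ ε hδ hε hδε
  refine ⟨n₀, fun n hn K hK hK' Z hZ => ?_⟩
  obtain ⟨N, Q, hN, hQ, hE⟩ := h n hn K hK hK' Z hZ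
  refine ⟨N, Q, hN, hQ, fun F hF hF' s r hrs => ?_⟩
  obtain ⟨h1, h2⟩ := hE F hF hF' s r hrs
  refine ⟨fun G => ?_, fun D hD => ?_⟩
  · refine le_trans (le_of_eq ?_) (h1 G)
    refine congrArg (fun m : ℕ => (m : ℝ)) (congrArg Finset.card ?_)
    ext i
    simp only [mem_filter, mem_univ, true_and]
    rfl
  · refine le_trans (le_of_eq ?_) (h2 D hD)
    refine congrArg (fun m : ℕ => (m : ℝ)) (congrArg Finset.card ?_)
    ext i
    simp only [mem_filter, mem_univ, true_and, CutTree]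

end Pool.Agent.RW
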